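import Pool.Agent.HB.Bun

/-!
# Project HB, part E (slope stability): basic definitions

Everything in part E is stated for a discrete valuation `v : L → ℤ` (only its values at nonzero
elements matter) with valuation ring `R`, and for a lattice `Λ ⊆ L ^ 5` of a special shape.
-/

set_option autoImplicit false

open scoped Matrix
open Polynomial

namespace HB.E

universe u

variable {L : Type u} [Field L]

/-- `v` is (on nonzero elements) the normalised discrete valuation with valuation ring `R`. -/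
structure DV (R : Subring L) (v : L → ℤ) : Prop where
  mul : ∀ x y, x ≠ 0 → y ≠ 0 → v (x * y) = v x + v y
  mem : ∀ x, x ≠ 0 → (x ∈ R ↔ 0 ≤ v x)
  unif : ∃ π : L, π ≠ 0 ∧ v π = 1

/-- The local shape of the rank 5 bundle at a discrete valuation ring `R`.
Indices: `0, 1, 2` are the marks, `3, 4` the two zeros of `ω`. -/
structure LocalAt (R : Subring L) (v : L → ℤ) (Λ : Set (Fin 5 → L)) where
  n : Fin 5 → L
  u : Fin 5 → L
  δ0 : L
  δ2 : L
  n_ne : ∀ i, n i ≠ 0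
  u_mem : ∀ i, u i ∈ R
  u_inj : Function.Injective u
  δ0_ne : δ0 ≠ 0
  δ2_ne : δ2 ≠ 0
  δ0_mem : δ0 ∈ R
  δ2_mem : δ2 ∈ R
  v01 : v (u 0 - u 1) = 3 * v δ0
  v21 : v (u 2 - u 1) = 3 * v δ2
  v02 : v (u 0 - u 2) = 0
  v34 : v (u 3 - u 4) = 0
  mem_iff : ∀ x : Fin 5 → L, x ∈ Λ ↔ ∃ f : R[X],
    (∃ c ∈ R, f.eval₂ R.subtype (u 0) = δ0 * c) ∧
    (∃ c ∈ R, f.eval₂ R.subtype (u 2) = δ2 * c) ∧
    ∀ i, x i = n i * f.eval₂ R.subtype (u i)

section Form

variable {R : Subring L} {v : L → ℤ} {Λ : Set (Fin 5 → L)}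

/-- The divided difference of `f` with respect to the points `u i`, `i ∈ S`, as a linear form in
the vector `x = (n i * f (u i))`. -/
noncomputable def LocalAt.dd (A : LocalAt R v Λ) (S : Finset (Fin 5)) : (Fin 5 → L) →ₗ[L] L :=
  ∑ i ∈ S, (A.n i * ∏ j ∈ S.erase i, (A.u i - A.u j))⁻¹ • LinearMap.proj i

/-- The symmetric matrix of the numbers `v (u i - u j)` (`0` on the diagonal). -/
def LocalAt.q (A : LocalAt R v Λ) (i j : Fin 5) : ℤ := if i = j then 0 else v (A.u i - A.u j)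

end Form

variable {k : Type u} [Field k] [Algebra k L]

/-- What part E needs about divisors, orders and degrees on a smooth surface (part A). -/
structure DegTheory (Y : Surf k L) : Prop where
  dv : ∀ C : Y.PD, DV C.1.toSubring C.ord
  fin : ∀ x : L, x ≠ 0 → {C : Y.PD | C.ord x ≠ 0}.Finite
  degH_add : ∀ D D' : Y.Div, Y.degH (D + D') = Y.degH D + Y.degH D'
  degH_div : ∀ (x : L) (D : Y.Div), Y.IsDiv x D → Y.degH D = 0
  degH_pos : ∀ C : Y.PD, 0 < Y.degH (Finsupp.single C 1)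

/-- The data from which stability is deduced. Indices: `0, 1, 2` are the marks, `3, 4` the two
zeros of `ω`; `F a k` is the divisor where the mark `a` meets the zero `k`. -/
structure StabData (Y : Surf k L) (E : Y.Pt → Set (Fin 5 → L))
    (θ : Matrix (Fin 5) (Fin 5) (Ω[L⁄k])) where
  lam : Fin 5 → Ω[L⁄k]
  hθ : θ = Matrix.diagonal lam
  lam3 : lam 3 = 0
  lam4 : lam 4 = 0
  lam0 : lam 0 ≠ 0
  lam1 : lam 1 ≠ 0
  lam2 : lam 2 ≠ 0
  lam01 : lam 0 ≠ lam 1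
  lam02 : lam 0 ≠ lam 2
  lam12 : lam 1 ≠ lam 2
  F : Fin 5 → Fin 5 → Y.Div
  D0 : Y.Div
  D2 : Y.Div
  V : Y.Div
  Z : Fin 5 → Y.Div
  ρ : Fin 5 → L
  ρ_ne : ∀ i, ρ i ≠ 0
  loc : ∀ C : Y.PD, LocalAt C.1.toSubring C.ord (atDiv E C : Set (Fin 5 → L))
  locF : ∀ (C : Y.PD) (a k : Fin 5), a < 3 → 3 ≤ k → C.ord ((loc C).u a - (loc C).u k) = F a k C
  locD0 : ∀ C : Y.PD, C.ord (loc C).δ0 = D0 C
  locD2 : ∀ C : Y.PD, C.ord (loc C).δ2 = D2 C
  rel0 : ∀ C : Y.PD, 3 * C.ord ((loc C).n 0) =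
    C.ord (ρ 0) - (3 * Z 0 C + F 0 3 C + F 0 4 C + 6 * D0 C + V C)
  rel1 : ∀ C : Y.PD, 3 * C.ord ((loc C).n 1) =
    C.ord (ρ 1) - (3 * Z 1 C + F 1 3 C + F 1 4 C + 6 * (D0 C + D2 C) + V C)
  rel2 : ∀ C : Y.PD, 3 * C.ord ((loc C).n 2) =
    C.ord (ρ 2) - (3 * Z 2 C + F 2 3 C + F 2 4 C + 6 * D2 C + V C)
  rel3 : ∀ C : Y.PD, 3 * C.ord ((loc C).n 3) =
    C.ord (ρ 3) - (2 * (F 0 3 C + F 1 3 C + F 2 3 C) + V C)
  rel4 : ∀ C : Y.PD, 3 * C.ord ((loc C).n 4) =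
    C.ord (ρ 4) - (2 * (F 0 4 C + F 1 4 C + F 2 4 C) + V C)
  degF : ∀ a : Fin 5, a < 3 → Y.degH (F a 3) = Y.degH (F a 4) ∧ 0 < Y.degH (F a 3)
  degZ : ∀ a : Fin 5, a < 3 → Y.degH (Z a) = 0

/-! ### Bases adapted to invariant subspaces and the numbers attached to them -/

/-- The standard basis of `L ^ 5`, except that the vector `k` is replaced by `e k + μ e k'`. -/
def bvec (k k' : Fin 5) (μ : L) (i : Fin 5) : Fin 5 → L :=
  if i = k then Pi.single k 1 + μ • Pi.single k' 1 else Pi.single i 1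

/-- The sum of `q i j` over all `i ∈ S` and all `j` before `i` in the order given by `pos`. -/
def cost (q : Fin 5 → Fin 5 → ℤ) (pos : Fin 5 → ℕ) (S : Finset (Fin 5)) : ℤ :=
  ∑ i ∈ S, ∑ j ∈ Finset.univ.filter (fun j => pos j < pos i), q i j

/-- The positive term in the final inequality. -/
def gfun (q : Fin 5 → Fin 5 → ℤ) (S : Finset (Fin 5)) : ℤ :=
  ∑ a ∈ ({0, 1, 2} : Finset (Fin 5)), ∑ z ∈ ({3, 4} : Finset (Fin 5)),
    if a ∈ S ∧ z ∉ S then q a z else if a ∉ S ∧ z ∈ S then 2 * q a z else 0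

/-- The terms coming from the class relations. -/
def tfun (q : Fin 5 → Fin 5 → ℤ) (d0 d2 : ℤ) (S : Finset (Fin 5)) : ℤ :=
  (if (0 : Fin 5) ∈ S then 2 * (q 0 3 + q 0 4) + 12 * d0 else 0) +
  (if (1 : Fin 5) ∈ S then 2 * (q 1 3 + q 1 4) + 12 * (d0 + d2) else 0) +
  (if (2 : Fin 5) ∈ S then 2 * (q 2 3 + q 2 4) + 12 * d2 else 0) +
  (if (3 : Fin 5) ∈ S then 4 * (q 0 3 + q 1 3 + q 2 3) else 0) +
  (if (4 : Fin 5) ∈ S then 4 * (q 0 4 + q 1 4 + q 2 4) else 0)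

end HB.E
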