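import Pool.Agent.HB.E.Val

/-!
# HB-E-Bound: integral linear forms bound the degree of a sublattice

PLAN.  Let `N = (ℓ i (w j)) * M`.  The entry `N i l` is `ℓ i (∑ j, M j l • w j)`, and the `l`-th
column of `M` is `M *ᵥ Pi.single l 1 ∈ latt R M`, so `∑ j, M j l • w j ∈ Λ` and `N i l ∈ R`.
Hence `N.det ∈ R` (`DV.det_mem`), `N.det ≠ 0`, so `0 ≤ v N.det = v (…).det + v M.det`.
-/

set_option autoImplicit false

open scoped Matrix

namespace HB.E

universe u
variable {L : Type u} [Field L] {R : Subring L} {v : L → ℤ}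

theorem bound {r m : ℕ} (h : DV R v) (Λ : Set (Fin r → L)) (w : Fin m → (Fin r → L))
    (M : Matrix (Fin m) (Fin m) L) (hM : M.det ≠ 0)
    (hMΛ : ∀ c ∈ latt R M, ∑ j, c j • w j ∈ Λ)
    (ℓ : Fin m → ((Fin r → L) →ₗ[L] L)) (hℓ : ∀ i, ∀ x ∈ Λ, ℓ i x ∈ R)
    (hd : (Matrix.of fun i j => ℓ i (w j)).det ≠ 0) :
    - v M.det ≤ v (Matrix.of fun i j => ℓ i (w j)).det := by
  have hN : ∀ i l, ((Matrix.of fun i j => ℓ i (w j)) * M) i l ∈ R := by
    intro i l
    have hcol : (fun j => M j l) ∈ latt R M := by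
      refine ⟨Pi.single l 1, ?_, ?_⟩
      · intro j
        by_cases hj : j = l
        · subst hj
          rw [Pi.single_eq_same]
          exact one_mem R
        · rw [Pi.single_eq_of_ne hj]
          exact zero_mem R
      · rw [Matrix.mulVec_single_one]
        rfl
    have h1 := hℓ i _ (hMΛ _ hcol)
    rw [map_sum] at h1
    rw [Matrix.mul_apply]
    convert h1 using 1
    refine Finset.sum_congr rfl fun j _ => ?_
    rw [map_smul, smul_eq_mul, Matrix.of_apply, mul_comm]
  have hdet : ((Matrix.of fun i j => ℓ i (w j)) * M).det ∈ R := DV.det_mem R _ hN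
  rw [Matrix.det_mul] at hdet
  have h0 := h.nonneg hdet (mul_ne_zero hd hM)
  rw [h.mul _ _ hd hM] at h0
  linarith

/-- Conversely, `m` vectors of the lattice in the span of `w` bound the degree from below. -/
theorem bound_below {r m : ℕ} (h : DV R v) (Λ : Set (Fin r → L)) (w : Fin m → (Fin r → L))
    (M : Matrix (Fin m) (Fin m) L) (hM : M.det ≠ 0)
    (hMΛ : ∀ c : Fin m → L, ∑ j, c j • w j ∈ Λ → c ∈ latt R M)
    (G : Matrix (Fin m) (Fin m) L) (hG : ∀ l, ∑ j, G j l • w j ∈ Λ) (hd : G.det ≠ 0) :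
    - v G.det ≤ - v M.det := by
  -- `G = M * N` with `N` integral, so `0 ≤ v N.det`
  have hcol : ∀ l, ∃ d : Fin m → L, (∀ j, d j ∈ R) ∧ (fun j => G j l) = M *ᵥ d :=
    fun l => hMΛ (fun j => G j l) (hG l)
  choose N hN hGN using hcol
  have hG' : G = M * (Matrix.of fun j l => N l j) := by
    ext j l
    have := congrFun (hGN l) j
    rw [Matrix.mul_apply]
    exact this
  have hdet : (Matrix.of fun j l => N l j).det ∈ R :=
    DV.det_mem R _ (fun i j => hN j i)
  have hd' : (Matrix.of fun j l => N l j).det ≠ 0 := by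
    intro h0
    apply hd
    rw [hG', Matrix.det_mul, h0, mul_zero]
  have h0 := h.nonneg hdet hd'
  rw [hG', Matrix.det_mul, h.mul _ _ hM hd']
  linarith

end HB.E
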