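import Pool.Agent.HB.E.Basic

/-!
# HB-E-Comb: the combinatorial inequality behind stability

The numbers `q i j` (`i ≠ j` in `{0,1,2,3,4}`) are symmetric, nonnegative and ultrametric, with
`q 0 1 = 3 d0`, `q 2 1 = 3 d2`, `q 0 2 = 0`, `q 3 4 = 0`.  (Checked by brute force for all
`d0, d2 ≤ 2`.)

PLAN.  Consequences: `d0 = 0` or `d2 = 0`; `q a 3 = 0` or `q a 4 = 0`; `q 0 z = 0` or `q 2 z = 0`;
the two smallest of `q 0 z, q 1 z, 3 d0` are equal, etc.  Finite case distinction on `S ∩ {0,1,2}`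
(8 cases) and `S ∩ {3,4}` (4 cases; `k` in or not in `S`).
Let `J = S ∩ {0,1,2}`, `b` run through the complement of `J` in `{0,1,2}`.
* `S ⊇ {3,4}`: order `b's` first, then (a) if `{0,1} ⊆ J` and `d0 > 0`: third alternative with the
  order `(0, b's, rest)` and the special form at `0`; (b) if `{1,2} ⊆ J` and `d2 > 0` the same with
  `2`; (c) otherwise the first alternative with `(b's, J, 3, 4)`.
* `S ∩ {3,4} = ∅`: first alternative with `(b's, 3, 4, J)`, or, if `{0,1} ⊆ J` and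
  `q 0 3 + q 0 4 ≤ d0` (resp. `{1,2} ⊆ J`, `q 2 3 + q 2 4 ≤ d2`), the special form at `0` (resp. `2`)
  with the order `(0, b's, 3, 4, 1, 2)` (resp. `(2, b's, 3, 4, 1, 0)`).
* exactly one of `3, 4` in `S` (this is `k` or `k'`; call it `z`, the other one `z'`):
  order `(b's, z, z', J)`, or, if `{0,1} ⊆ J` and `q 0 z' ≤ d0` and `d0 > 0`, the special form at `0`
  with the order `(0, b's, z, z', 1, 2)`; same with `2`.
In each case unfold `cost`, `gfun`, `tfun` (`decide`/`simp` for the membership tests) and finish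
with `omega`.  It is a good idea to do `fin_cases` on `S` (or `Finset` membership booleans) and to
give `pos` as a vector `![..]`.
-/

set_option autoImplicit false

namespace HB.E

private def cbRow (q : Fin 5 → Fin 5 → ℤ) (pos : Fin 5 → ℕ) (i : Fin 5) : ℤ :=
  (if pos 0 < pos i then q i 0 else 0) + (if pos 1 < pos i then q i 1 else 0) +
    (if pos 2 < pos i then q i 2 else 0) + (if pos 3 < pos i then q i 3 else 0) +
    (if pos 4 < pos i then q i 4 else 0)

private theorem cb_cost (q : Fin 5 → Fin 5 → ℤ) (pos : Fin 5 → ℕ) (S : Finset (Fin 5)) :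
    cost q pos S = (if (0 : Fin 5) ∈ S then cbRow q pos 0 else 0) + (if (1 : Fin 5) ∈ S then cbRow q pos 1 else 0) +
      (if (2 : Fin 5) ∈ S then cbRow q pos 2 else 0) + (if (3 : Fin 5) ∈ S then cbRow q pos 3 else 0) +
      (if (4 : Fin 5) ∈ S then cbRow q pos 4 else 0) := by
  have h1 : cost q pos S = ∑ i : Fin 5, if i ∈ S then cbRow q pos i else 0 := by
    unfold cost
    rw [Finset.sum_ite_mem, Finset.univ_inter]
    refine Finset.sum_congr rfl fun i _ => ?_
    rw [Finset.sum_filter, Fin.sum_univ_five]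
    rfl
  rw [h1, Fin.sum_univ_five]

private theorem cb_gfun (q : Fin 5 → Fin 5 → ℤ) (S : Finset (Fin 5)) :
    gfun q S = (if (0 : Fin 5) ∈ S ∧ (3 : Fin 5) ∉ S then q 0 3 else if (0 : Fin 5) ∉ S ∧ (3 : Fin 5) ∈ S then 2 * q 0 3 else 0) +
      (if (0 : Fin 5) ∈ S ∧ (4 : Fin 5) ∉ S then q 0 4 else if (0 : Fin 5) ∉ S ∧ (4 : Fin 5) ∈ S then 2 * q 0 4 else 0) +
      ((if (1 : Fin 5) ∈ S ∧ (3 : Fin 5) ∉ S then q 1 3 else if (1 : Fin 5) ∉ S ∧ (3 : Fin 5) ∈ S then 2 * q 1 3 else 0) +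
      (if (1 : Fin 5) ∈ S ∧ (4 : Fin 5) ∉ S then q 1 4 else if (1 : Fin 5) ∉ S ∧ (4 : Fin 5) ∈ S then 2 * q 1 4 else 0)) +
      ((if (2 : Fin 5) ∈ S ∧ (3 : Fin 5) ∉ S then q 2 3 else if (2 : Fin 5) ∉ S ∧ (3 : Fin 5) ∈ S then 2 * q 2 3 else 0) +
      (if (2 : Fin 5) ∈ S ∧ (4 : Fin 5) ∉ S then q 2 4 else if (2 : Fin 5) ∉ S ∧ (4 : Fin 5) ∈ S then 2 * q 2 4 else 0)) := by
  unfold gfun
  have h34 : (3 : Fin 5) ∉ ({4} : Finset (Fin 5)) := by decide
  have h0 : (0 : Fin 5) ∉ ({1, 2} : Finset (Fin 5)) := by decide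
  have h1 : (1 : Fin 5) ∉ ({2} : Finset (Fin 5)) := by decide
  rw [Finset.sum_insert h0, Finset.sum_insert h1, Finset.sum_singleton]
  simp only [Finset.sum_insert h34, Finset.sum_singleton]
  ring

set_option linter.unusedSimpArgs false in
set_option maxRecDepth 4000 in
theorem comb (q : Fin 5 → Fin 5 → ℤ) (d0 d2 : ℤ) (hs : ∀ i j, q i j = q j i)
    (hn : ∀ i j, 0 ≤ q i j)
    (hu : ∀ i j l, i ≠ j → i ≠ l → l ≠ j → min (q i l) (q l j) ≤ q i j)
    (h01 : q 0 1 = 3 * d0) (h21 : q 2 1 = 3 * d2) (h02 : q 0 2 = 0) (h34 : q 3 4 = 0)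
    (hd0 : 0 ≤ d0) (hd2 : 0 ≤ d2) (k k' : Fin 5)
    (hkk : (k = 3 ∧ k' = 4) ∨ (k = 4 ∧ k' = 3)) (S : Finset (Fin 5)) :
    ∃ pos : Fin 5 → ℕ, Function.Injective pos ∧ ((k ∈ S ∧ k' ∉ S) → pos k < pos k') ∧
      (tfun q d0 d2 S + gfun q S ≤ 6 * cost q pos S ∨
        ((0 : Fin 5) ∈ S ∧ tfun q d0 d2 S + gfun q S ≤ 6 * (d0 + cost q pos (S.erase 0))) ∨
        ((2 : Fin 5) ∈ S ∧ tfun q d0 d2 S + gfun q S ≤ 6 * (d2 + cost q pos (S.erase 2)))) := by
  have a10 : q 1 0 = 3 * d0 := by rw [hs, h01]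
  have a20 : q 2 0 = 0 := by rw [hs, h02]
  have a30 : q 3 0 = q 0 3 := hs _ _
  have a40 : q 4 0 = q 0 4 := hs _ _
  have a12 : q 1 2 = 3 * d2 := by rw [hs, h21]
  have a31 : q 3 1 = q 1 3 := hs _ _
  have a41 : q 4 1 = q 1 4 := hs _ _
  have a32 : q 3 2 = q 2 3 := hs _ _
  have a42 : q 4 2 = q 2 4 := hs _ _
  have a43 : q 4 3 = 0 := by rw [hs, h34]
  have a01 := h01
  have a21 := h21
  have a02 := h02
  have a34 := h34
  have n03 := hn 0 3
  have n04 := hn 0 4
  have n13 := hn 1 3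
  have n14 := hn 1 4
  have n23 := hn 2 3
  have n24 := hn 2 4
  have z1 : 3 * d0 ≤ 0 ∨ 3 * d2 ≤ 0 := by
    have h := hu 0 2 1 (by decide) (by decide) (by decide)
    rwa [min_le_iff, h01, a12, h02] at h
  have u3 : 3 * d0 ≤ q 1 3 ∨ q 0 3 ≤ q 1 3 := by
    have h := hu 1 3 0 (by decide) (by decide) (by decide)
    rwa [min_le_iff, a10] at h
  have u6 : 3 * d0 ≤ q 1 4 ∨ q 0 4 ≤ q 1 4 := by
    have h := hu 1 4 0 (by decide) (by decide) (by decide)
    rwa [min_le_iff, a10] at h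
  have v3 : 3 * d2 ≤ q 1 3 ∨ q 2 3 ≤ q 1 3 := by
    have h := hu 1 3 2 (by decide) (by decide) (by decide)
    rwa [min_le_iff, a12] at h
  have v6 : 3 * d2 ≤ q 1 4 ∨ q 2 4 ≤ q 1 4 := by
    have h := hu 1 4 2 (by decide) (by decide) (by decide)
    rwa [min_le_iff, a12] at h
  clear hu hn
  rcases hkk with ⟨rfl, rfl⟩ | ⟨rfl, rfl⟩
  · by_cases m0 : (0 : Fin 5) ∈ S
    · by_cases m1 : (1 : Fin 5) ∈ S
      · by_cases m2 : (2 : Fin 5) ∈ S
        · by_cases m3 : (3 : Fin 5) ∈ S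
          · by_cases m4 : (4 : Fin 5) ∈ S
            · rcases le_or_gt (tfun q d0 d2 S + gfun q S) (6 * (d0 + cost q ![0, 1, 2, 3, 4] (S.erase 0))) with hc | hc
              · exact ⟨![0, 1, 2, 3, 4], by decide, fun h => absurd m4 h.2, Or.inr (Or.inl ⟨m0, hc⟩)⟩
              · refine ⟨![0, 2, 1, 3, 4], by decide, fun h => absurd m4 h.2, Or.inr (Or.inr ⟨m2, ?_⟩)⟩
                simp [cb_cost, cbRow, cb_gfun, tfun, m0, m1, m2, m3, m4, a10, a20, a30, a40, a12, a31, a41, a32, a42, a43, a01, a21, a02, a34] at hc ⊢ <;> omega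
            · rcases le_or_gt (tfun q d0 d2 S + gfun q S) (6 * (d0 + cost q ![0, 3, 4, 1, 2] (S.erase 0))) with hc | hc
              · exact ⟨![0, 3, 4, 1, 2], by decide, fun _ => by decide, Or.inr (Or.inl ⟨m0, hc⟩)⟩
              · refine ⟨![3, 4, 0, 1, 2], by decide, fun _ => by decide, Or.inr (Or.inr ⟨m2, ?_⟩)⟩
                simp [cb_cost, cbRow, cb_gfun, tfun, m0, m1, m2, m3, m4, a10, a20, a30, a40, a12, a31, a41, a32, a42, a43, a01, a21, a02, a34] at hc ⊢ <;> omega
          · by_cases m4 : (4 : Fin 5) ∈ S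
            · rcases le_or_gt (tfun q d0 d2 S + gfun q S) (6 * (d0 + cost q ![0, 2, 3, 1, 4] (S.erase 0))) with hc | hc
              · exact ⟨![0, 2, 3, 1, 4], by decide, fun h => absurd h.1 m3, Or.inr (Or.inl ⟨m0, hc⟩)⟩
              · refine ⟨![1, 3, 2, 0, 4], by decide, fun h => absurd h.1 m3, Or.inr (Or.inr ⟨m2, ?_⟩)⟩
                simp [cb_cost, cbRow, cb_gfun, tfun, m0, m1, m2, m3, m4, a10, a20, a30, a40, a12, a31, a41, a32, a42, a43, a01, a21, a02, a34] at hc ⊢ <;> omega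
            · rcases le_or_gt (tfun q d0 d2 S + gfun q S) (6 * (d0 + cost q ![0, 3, 4, 1, 2] (S.erase 0))) with hc | hc
              · exact ⟨![0, 3, 4, 1, 2], by decide, fun h => absurd h.1 m3, Or.inr (Or.inl ⟨m0, hc⟩)⟩
              · refine ⟨![2, 4, 3, 0, 1], by decide, fun h => absurd h.1 m3, Or.inr (Or.inr ⟨m2, ?_⟩)⟩
                simp [cb_cost, cbRow, cb_gfun, tfun, m0, m1, m2, m3, m4, a10, a20, a30, a40, a12, a31, a41, a32, a42, a43, a01, a21, a02, a34] at hc ⊢ <;> omega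
        · by_cases m3 : (3 : Fin 5) ∈ S
          · by_cases m4 : (4 : Fin 5) ∈ S
            · refine ⟨![0, 2, 1, 3, 4], by decide, fun h => absurd m4 h.2, Or.inr (Or.inl ⟨m0, ?_⟩)⟩
              simp [cb_cost, cbRow, cb_gfun, tfun, m0, m1, m2, m3, m4, a10, a20, a30, a40, a12, a31, a41, a32, a42, a43, a01, a21, a02, a34] <;> omega
            · rcases le_or_gt (tfun q d0 d2 S + gfun q S) (6 * cost q ![3, 4, 0, 1, 2] S) with hc | hc
              · exact ⟨![3, 4, 0, 1, 2], by decide, fun _ => by decide, Or.inl hc⟩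
              · refine ⟨![0, 4, 1, 2, 3], by decide, fun _ => by decide, Or.inr (Or.inl ⟨m0, ?_⟩)⟩
                simp [cb_cost, cbRow, cb_gfun, tfun, m0, m1, m2, m3, m4, a10, a20, a30, a40, a12, a31, a41, a32, a42, a43, a01, a21, a02, a34] at hc ⊢ <;> omega
          · by_cases m4 : (4 : Fin 5) ∈ S
            · rcases le_or_gt (tfun q d0 d2 S + gfun q S) (6 * cost q ![1, 3, 2, 0, 4] S) with hc | hc
              · exact ⟨![1, 3, 2, 0, 4], by decide, fun h => absurd h.1 m3, Or.inl hc⟩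
              · refine ⟨![0, 3, 1, 2, 4], by decide, fun h => absurd h.1 m3, Or.inr (Or.inl ⟨m0, ?_⟩)⟩
                simp [cb_cost, cbRow, cb_gfun, tfun, m0, m1, m2, m3, m4, a10, a20, a30, a40, a12, a31, a41, a32, a42, a43, a01, a21, a02, a34] at hc ⊢ <;> omega
            · rcases le_or_gt (tfun q d0 d2 S + gfun q S) (6 * cost q ![2, 4, 3, 0, 1] S) with hc | hc
              · exact ⟨![2, 4, 3, 0, 1], by decide, fun h => absurd h.1 m3, Or.inl hc⟩
              · refine ⟨![0, 4, 1, 2, 3], by decide, fun h => absurd h.1 m3, Or.inr (Or.inl ⟨m0, ?_⟩)⟩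
                simp [cb_cost, cbRow, cb_gfun, tfun, m0, m1, m2, m3, m4, a10, a20, a30, a40, a12, a31, a41, a32, a42, a43, a01, a21, a02, a34] at hc ⊢ <;> omega
      · by_cases m2 : (2 : Fin 5) ∈ S
        · by_cases m3 : (3 : Fin 5) ∈ S
          · by_cases m4 : (4 : Fin 5) ∈ S
            · refine ⟨![1, 0, 2, 3, 4], by decide, fun h => absurd m4 h.2, Or.inl ?_⟩
              simp [cb_cost, cbRow, cb_gfun, tfun, m0, m1, m2, m3, m4, a10, a20, a30, a40, a12, a31, a41, a32, a42, a43, a01, a21, a02, a34] <;> omega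
            · refine ⟨![3, 0, 4, 1, 2], by decide, fun _ => by decide, Or.inl ?_⟩
              simp [cb_cost, cbRow, cb_gfun, tfun, m0, m1, m2, m3, m4, a10, a20, a30, a40, a12, a31, a41, a32, a42, a43, a01, a21, a02, a34] <;> omega
          · by_cases m4 : (4 : Fin 5) ∈ S
            · refine ⟨![2, 0, 3, 1, 4], by decide, fun h => absurd h.1 m3, Or.inl ?_⟩
              simp [cb_cost, cbRow, cb_gfun, tfun, m0, m1, m2, m3, m4, a10, a20, a30, a40, a12, a31, a41, a32, a42, a43, a01, a21, a02, a34] <;> omega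
            · refine ⟨![3, 0, 4, 1, 2], by decide, fun h => absurd h.1 m3, Or.inl ?_⟩
              simp [cb_cost, cbRow, cb_gfun, tfun, m0, m1, m2, m3, m4, a10, a20, a30, a40, a12, a31, a41, a32, a42, a43, a01, a21, a02, a34] <;> omega
        · by_cases m3 : (3 : Fin 5) ∈ S
          · by_cases m4 : (4 : Fin 5) ∈ S
            · refine ⟨![1, 0, 2, 3, 4], by decide, fun h => absurd m4 h.2, Or.inl ?_⟩
              simp [cb_cost, cbRow, cb_gfun, tfun, m0, m1, m2, m3, m4, a10, a20, a30, a40, a12, a31, a41, a32, a42, a43, a01, a21, a02, a34] <;> omega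
            · refine ⟨![4, 0, 1, 2, 3], by decide, fun _ => by decide, Or.inl ?_⟩
              simp [cb_cost, cbRow, cb_gfun, tfun, m0, m1, m2, m3, m4, a10, a20, a30, a40, a12, a31, a41, a32, a42, a43, a01, a21, a02, a34] <;> omega
          · by_cases m4 : (4 : Fin 5) ∈ S
            · refine ⟨![2, 0, 3, 1, 4], by decide, fun h => absurd h.1 m3, Or.inl ?_⟩
              simp [cb_cost, cbRow, cb_gfun, tfun, m0, m1, m2, m3, m4, a10, a20, a30, a40, a12, a31, a41, a32, a42, a43, a01, a21, a02, a34] <;> omega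
            · refine ⟨![3, 0, 4, 1, 2], by decide, fun h => absurd h.1 m3, Or.inl ?_⟩
              simp [cb_cost, cbRow, cb_gfun, tfun, m0, m1, m2, m3, m4, a10, a20, a30, a40, a12, a31, a41, a32, a42, a43, a01, a21, a02, a34] <;> omega
    · by_cases m1 : (1 : Fin 5) ∈ S
      · by_cases m2 : (2 : Fin 5) ∈ S
        · by_cases m3 : (3 : Fin 5) ∈ S
          · by_cases m4 : (4 : Fin 5) ∈ S
            · refine ⟨![0, 2, 1, 3, 4], by decide, fun h => absurd m4 h.2, Or.inr (Or.inr ⟨m2, ?_⟩)⟩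
              simp [cb_cost, cbRow, cb_gfun, tfun, m0, m1, m2, m3, m4, a10, a20, a30, a40, a12, a31, a41, a32, a42, a43, a01, a21, a02, a34] <;> omega
            · rcases le_or_gt (tfun q d0 d2 S + gfun q S) (6 * cost q ![0, 3, 4, 1, 2] S) with hc | hc
              · exact ⟨![0, 3, 4, 1, 2], by decide, fun _ => by decide, Or.inl hc⟩
              · refine ⟨![0, 4, 1, 2, 3], by decide, fun _ => by decide, Or.inr (Or.inr ⟨m2, ?_⟩)⟩
                simp [cb_cost, cbRow, cb_gfun, tfun, m0, m1, m2, m3, m4, a10, a20, a30, a40, a12, a31, a41, a32, a42, a43, a01, a21, a02, a34] at hc ⊢ <;> omega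
          · by_cases m4 : (4 : Fin 5) ∈ S
            · rcases le_or_gt (tfun q d0 d2 S + gfun q S) (6 * cost q ![0, 2, 3, 1, 4] S) with hc | hc
              · exact ⟨![0, 2, 3, 1, 4], by decide, fun h => absurd h.1 m3, Or.inl hc⟩
              · refine ⟨![0, 3, 1, 2, 4], by decide, fun h => absurd h.1 m3, Or.inr (Or.inr ⟨m2, ?_⟩)⟩
                simp [cb_cost, cbRow, cb_gfun, tfun, m0, m1, m2, m3, m4, a10, a20, a30, a40, a12, a31, a41, a32, a42, a43, a01, a21, a02, a34] at hc ⊢ <;> omega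
            · rcases le_or_gt (tfun q d0 d2 S + gfun q S) (6 * cost q ![0, 3, 4, 1, 2] S) with hc | hc
              · exact ⟨![0, 3, 4, 1, 2], by decide, fun h => absurd h.1 m3, Or.inl hc⟩
              · refine ⟨![0, 4, 1, 2, 3], by decide, fun h => absurd h.1 m3, Or.inr (Or.inr ⟨m2, ?_⟩)⟩
                simp [cb_cost, cbRow, cb_gfun, tfun, m0, m1, m2, m3, m4, a10, a20, a30, a40, a12, a31, a41, a32, a42, a43, a01, a21, a02, a34] at hc ⊢ <;> omega
        · by_cases m3 : (3 : Fin 5) ∈ S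
          · by_cases m4 : (4 : Fin 5) ∈ S
            · refine ⟨![0, 2, 1, 3, 4], by decide, fun h => absurd m4 h.2, Or.inl ?_⟩
              simp [cb_cost, cbRow, cb_gfun, tfun, m0, m1, m2, m3, m4, a10, a20, a30, a40, a12, a31, a41, a32, a42, a43, a01, a21, a02, a34] <;> omega
            · refine ⟨![0, 4, 1, 2, 3], by decide, fun _ => by decide, Or.inl ?_⟩
              simp [cb_cost, cbRow, cb_gfun, tfun, m0, m1, m2, m3, m4, a10, a20, a30, a40, a12, a31, a41, a32, a42, a43, a01, a21, a02, a34] <;> omega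
          · by_cases m4 : (4 : Fin 5) ∈ S
            · refine ⟨![0, 3, 1, 2, 4], by decide, fun h => absurd h.1 m3, Or.inl ?_⟩
              simp [cb_cost, cbRow, cb_gfun, tfun, m0, m1, m2, m3, m4, a10, a20, a30, a40, a12, a31, a41, a32, a42, a43, a01, a21, a02, a34] <;> omega
            · refine ⟨![0, 4, 1, 2, 3], by decide, fun h => absurd h.1 m3, Or.inl ?_⟩
              simp [cb_cost, cbRow, cb_gfun, tfun, m0, m1, m2, m3, m4, a10, a20, a30, a40, a12, a31, a41, a32, a42, a43, a01, a21, a02, a34] <;> omega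
      · by_cases m2 : (2 : Fin 5) ∈ S
        · by_cases m3 : (3 : Fin 5) ∈ S
          · by_cases m4 : (4 : Fin 5) ∈ S
            · refine ⟨![0, 1, 2, 3, 4], by decide, fun h => absurd m4 h.2, Or.inl ?_⟩
              simp [cb_cost, cbRow, cb_gfun, tfun, m0, m1, m2, m3, m4, a10, a20, a30, a40, a12, a31, a41, a32, a42, a43, a01, a21, a02, a34] <;> omega
            · refine ⟨![0, 1, 4, 2, 3], by decide, fun _ => by decide, Or.inl ?_⟩
              simp [cb_cost, cbRow, cb_gfun, tfun, m0, m1, m2, m3, m4, a10, a20, a30, a40, a12, a31, a41, a32, a42, a43, a01, a21, a02, a34] <;> omega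
          · by_cases m4 : (4 : Fin 5) ∈ S
            · refine ⟨![0, 1, 3, 2, 4], by decide, fun h => absurd h.1 m3, Or.inl ?_⟩
              simp [cb_cost, cbRow, cb_gfun, tfun, m0, m1, m2, m3, m4, a10, a20, a30, a40, a12, a31, a41, a32, a42, a43, a01, a21, a02, a34] <;> omega
            · refine ⟨![0, 1, 4, 2, 3], by decide, fun h => absurd h.1 m3, Or.inl ?_⟩
              simp [cb_cost, cbRow, cb_gfun, tfun, m0, m1, m2, m3, m4, a10, a20, a30, a40, a12, a31, a41, a32, a42, a43, a01, a21, a02, a34] <;> omega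
        · by_cases m3 : (3 : Fin 5) ∈ S
          · by_cases m4 : (4 : Fin 5) ∈ S
            · refine ⟨![0, 1, 2, 3, 4], by decide, fun h => absurd m4 h.2, Or.inl ?_⟩
              simp [cb_cost, cbRow, cb_gfun, tfun, m0, m1, m2, m3, m4, a10, a20, a30, a40, a12, a31, a41, a32, a42, a43, a01, a21, a02, a34] <;> omega
            · refine ⟨![0, 1, 2, 3, 4], by decide, fun _ => by decide, Or.inl ?_⟩
              simp [cb_cost, cbRow, cb_gfun, tfun, m0, m1, m2, m3, m4, a10, a20, a30, a40, a12, a31, a41, a32, a42, a43, a01, a21, a02, a34] <;> omega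
          · by_cases m4 : (4 : Fin 5) ∈ S
            · refine ⟨![0, 1, 2, 3, 4], by decide, fun h => absurd h.1 m3, Or.inl ?_⟩
              simp [cb_cost, cbRow, cb_gfun, tfun, m0, m1, m2, m3, m4, a10, a20, a30, a40, a12, a31, a41, a32, a42, a43, a01, a21, a02, a34] <;> omega
            · refine ⟨![0, 1, 2, 3, 4], by decide, fun h => absurd h.1 m3, Or.inl ?_⟩
              simp [cb_cost, cbRow, cb_gfun, tfun, m0, m1, m2, m3, m4, a10, a20, a30, a40, a12, a31, a41, a32, a42, a43, a01, a21, a02, a34] <;> omega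
  · by_cases m0 : (0 : Fin 5) ∈ S
    · by_cases m1 : (1 : Fin 5) ∈ S
      · by_cases m2 : (2 : Fin 5) ∈ S
        · by_cases m3 : (3 : Fin 5) ∈ S
          · by_cases m4 : (4 : Fin 5) ∈ S
            · rcases le_or_gt (tfun q d0 d2 S + gfun q S) (6 * (d0 + cost q ![0, 1, 2, 3, 4] (S.erase 0))) with hc | hc
              · exact ⟨![0, 1, 2, 3, 4], by decide, fun h => absurd m3 h.2, Or.inr (Or.inl ⟨m0, hc⟩)⟩
              · refine ⟨![0, 2, 1, 3, 4], by decide, fun h => absurd m3 h.2, Or.inr (Or.inr ⟨m2, ?_⟩)⟩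
                simp [cb_cost, cbRow, cb_gfun, tfun, m0, m1, m2, m3, m4, a10, a20, a30, a40, a12, a31, a41, a32, a42, a43, a01, a21, a02, a34] at hc ⊢ <;> omega
            · rcases le_or_gt (tfun q d0 d2 S + gfun q S) (6 * (d0 + cost q ![0, 2, 3, 4, 1] (S.erase 0))) with hc | hc
              · exact ⟨![0, 2, 3, 4, 1], by decide, fun h => absurd h.1 m4, Or.inr (Or.inl ⟨m0, hc⟩)⟩
              · refine ⟨![1, 3, 2, 4, 0], by decide, fun h => absurd h.1 m4, Or.inr (Or.inr ⟨m2, ?_⟩)⟩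
                simp [cb_cost, cbRow, cb_gfun, tfun, m0, m1, m2, m3, m4, a10, a20, a30, a40, a12, a31, a41, a32, a42, a43, a01, a21, a02, a34] at hc ⊢ <;> omega
          · by_cases m4 : (4 : Fin 5) ∈ S
            · rcases le_or_gt (tfun q d0 d2 S + gfun q S) (6 * (d0 + cost q ![0, 3, 4, 2, 1] (S.erase 0))) with hc | hc
              · exact ⟨![0, 3, 4, 2, 1], by decide, fun _ => by decide, Or.inr (Or.inl ⟨m0, hc⟩)⟩
              · refine ⟨![3, 4, 0, 2, 1], by decide, fun _ => by decide, Or.inr (Or.inr ⟨m2, ?_⟩)⟩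
                simp [cb_cost, cbRow, cb_gfun, tfun, m0, m1, m2, m3, m4, a10, a20, a30, a40, a12, a31, a41, a32, a42, a43, a01, a21, a02, a34] at hc ⊢ <;> omega
            · rcases le_or_gt (tfun q d0 d2 S + gfun q S) (6 * (d0 + cost q ![0, 3, 4, 1, 2] (S.erase 0))) with hc | hc
              · exact ⟨![0, 3, 4, 1, 2], by decide, fun h => absurd h.1 m4, Or.inr (Or.inl ⟨m0, hc⟩)⟩
              · refine ⟨![2, 4, 3, 0, 1], by decide, fun h => absurd h.1 m4, Or.inr (Or.inr ⟨m2, ?_⟩)⟩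
                simp [cb_cost, cbRow, cb_gfun, tfun, m0, m1, m2, m3, m4, a10, a20, a30, a40, a12, a31, a41, a32, a42, a43, a01, a21, a02, a34] at hc ⊢ <;> omega
        · by_cases m3 : (3 : Fin 5) ∈ S
          · by_cases m4 : (4 : Fin 5) ∈ S
            · refine ⟨![0, 2, 1, 3, 4], by decide, fun h => absurd m3 h.2, Or.inr (Or.inl ⟨m0, ?_⟩)⟩
              simp [cb_cost, cbRow, cb_gfun, tfun, m0, m1, m2, m3, m4, a10, a20, a30, a40, a12, a31, a41, a32, a42, a43, a01, a21, a02, a34] <;> omega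
            · rcases le_or_gt (tfun q d0 d2 S + gfun q S) (6 * cost q ![1, 3, 2, 4, 0] S) with hc | hc
              · exact ⟨![1, 3, 2, 4, 0], by decide, fun h => absurd h.1 m4, Or.inl hc⟩
              · refine ⟨![0, 3, 1, 4, 2], by decide, fun h => absurd h.1 m4, Or.inr (Or.inl ⟨m0, ?_⟩)⟩
                simp [cb_cost, cbRow, cb_gfun, tfun, m0, m1, m2, m3, m4, a10, a20, a30, a40, a12, a31, a41, a32, a42, a43, a01, a21, a02, a34] at hc ⊢ <;> omega
          · by_cases m4 : (4 : Fin 5) ∈ S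
            · rcases le_or_gt (tfun q d0 d2 S + gfun q S) (6 * cost q ![3, 4, 0, 2, 1] S) with hc | hc
              · exact ⟨![3, 4, 0, 2, 1], by decide, fun _ => by decide, Or.inl hc⟩
              · refine ⟨![0, 4, 1, 3, 2], by decide, fun _ => by decide, Or.inr (Or.inl ⟨m0, ?_⟩)⟩
                simp [cb_cost, cbRow, cb_gfun, tfun, m0, m1, m2, m3, m4, a10, a20, a30, a40, a12, a31, a41, a32, a42, a43, a01, a21, a02, a34] at hc ⊢ <;> omega
            · rcases le_or_gt (tfun q d0 d2 S + gfun q S) (6 * cost q ![2, 4, 3, 0, 1] S) with hc | hc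
              · exact ⟨![2, 4, 3, 0, 1], by decide, fun h => absurd h.1 m4, Or.inl hc⟩
              · refine ⟨![0, 4, 1, 2, 3], by decide, fun h => absurd h.1 m4, Or.inr (Or.inl ⟨m0, ?_⟩)⟩
                simp [cb_cost, cbRow, cb_gfun, tfun, m0, m1, m2, m3, m4, a10, a20, a30, a40, a12, a31, a41, a32, a42, a43, a01, a21, a02, a34] at hc ⊢ <;> omega
      · by_cases m2 : (2 : Fin 5) ∈ S
        · by_cases m3 : (3 : Fin 5) ∈ S
          · by_cases m4 : (4 : Fin 5) ∈ S
            · refine ⟨![1, 0, 2, 3, 4], by decide, fun h => absurd m3 h.2, Or.inl ?_⟩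
              simp [cb_cost, cbRow, cb_gfun, tfun, m0, m1, m2, m3, m4, a10, a20, a30, a40, a12, a31, a41, a32, a42, a43, a01, a21, a02, a34] <;> omega
            · refine ⟨![2, 0, 3, 4, 1], by decide, fun h => absurd h.1 m4, Or.inl ?_⟩
              simp [cb_cost, cbRow, cb_gfun, tfun, m0, m1, m2, m3, m4, a10, a20, a30, a40, a12, a31, a41, a32, a42, a43, a01, a21, a02, a34] <;> omega
          · by_cases m4 : (4 : Fin 5) ∈ S
            · refine ⟨![3, 0, 4, 2, 1], by decide, fun _ => by decide, Or.inl ?_⟩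
              simp [cb_cost, cbRow, cb_gfun, tfun, m0, m1, m2, m3, m4, a10, a20, a30, a40, a12, a31, a41, a32, a42, a43, a01, a21, a02, a34] <;> omega
            · refine ⟨![3, 0, 4, 1, 2], by decide, fun h => absurd h.1 m4, Or.inl ?_⟩
              simp [cb_cost, cbRow, cb_gfun, tfun, m0, m1, m2, m3, m4, a10, a20, a30, a40, a12, a31, a41, a32, a42, a43, a01, a21, a02, a34] <;> omega
        · by_cases m3 : (3 : Fin 5) ∈ S
          · by_cases m4 : (4 : Fin 5) ∈ S
            · refine ⟨![1, 0, 2, 3, 4], by decide, fun h => absurd m3 h.2, Or.inl ?_⟩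
              simp [cb_cost, cbRow, cb_gfun, tfun, m0, m1, m2, m3, m4, a10, a20, a30, a40, a12, a31, a41, a32, a42, a43, a01, a21, a02, a34] <;> omega
            · refine ⟨![2, 0, 3, 4, 1], by decide, fun h => absurd h.1 m4, Or.inl ?_⟩
              simp [cb_cost, cbRow, cb_gfun, tfun, m0, m1, m2, m3, m4, a10, a20, a30, a40, a12, a31, a41, a32, a42, a43, a01, a21, a02, a34] <;> omega
          · by_cases m4 : (4 : Fin 5) ∈ S
            · refine ⟨![4, 0, 1, 3, 2], by decide, fun _ => by decide, Or.inl ?_⟩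
              simp [cb_cost, cbRow, cb_gfun, tfun, m0, m1, m2, m3, m4, a10, a20, a30, a40, a12, a31, a41, a32, a42, a43, a01, a21, a02, a34] <;> omega
            · refine ⟨![3, 0, 4, 1, 2], by decide, fun h => absurd h.1 m4, Or.inl ?_⟩
              simp [cb_cost, cbRow, cb_gfun, tfun, m0, m1, m2, m3, m4, a10, a20, a30, a40, a12, a31, a41, a32, a42, a43, a01, a21, a02, a34] <;> omega
    · by_cases m1 : (1 : Fin 5) ∈ S
      · by_cases m2 : (2 : Fin 5) ∈ S
        · by_cases m3 : (3 : Fin 5) ∈ S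
          · by_cases m4 : (4 : Fin 5) ∈ S
            · refine ⟨![0, 2, 1, 3, 4], by decide, fun h => absurd m3 h.2, Or.inr (Or.inr ⟨m2, ?_⟩)⟩
              simp [cb_cost, cbRow, cb_gfun, tfun, m0, m1, m2, m3, m4, a10, a20, a30, a40, a12, a31, a41, a32, a42, a43, a01, a21, a02, a34] <;> omega
            · rcases le_or_gt (tfun q d0 d2 S + gfun q S) (6 * cost q ![0, 2, 3, 4, 1] S) with hc | hc
              · exact ⟨![0, 2, 3, 4, 1], by decide, fun h => absurd h.1 m4, Or.inl hc⟩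
              · refine ⟨![0, 3, 1, 4, 2], by decide, fun h => absurd h.1 m4, Or.inr (Or.inr ⟨m2, ?_⟩)⟩
                simp [cb_cost, cbRow, cb_gfun, tfun, m0, m1, m2, m3, m4, a10, a20, a30, a40, a12, a31, a41, a32, a42, a43, a01, a21, a02, a34] at hc ⊢ <;> omega
          · by_cases m4 : (4 : Fin 5) ∈ S
            · rcases le_or_gt (tfun q d0 d2 S + gfun q S) (6 * cost q ![0, 3, 4, 2, 1] S) with hc | hc
              · exact ⟨![0, 3, 4, 2, 1], by decide, fun _ => by decide, Or.inl hc⟩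
              · refine ⟨![0, 4, 1, 3, 2], by decide, fun _ => by decide, Or.inr (Or.inr ⟨m2, ?_⟩)⟩
                simp [cb_cost, cbRow, cb_gfun, tfun, m0, m1, m2, m3, m4, a10, a20, a30, a40, a12, a31, a41, a32, a42, a43, a01, a21, a02, a34] at hc ⊢ <;> omega
            · rcases le_or_gt (tfun q d0 d2 S + gfun q S) (6 * cost q ![0, 3, 4, 1, 2] S) with hc | hc
              · exact ⟨![0, 3, 4, 1, 2], by decide, fun h => absurd h.1 m4, Or.inl hc⟩
              · refine ⟨![0, 4, 1, 2, 3], by decide, fun h => absurd h.1 m4, Or.inr (Or.inr ⟨m2, ?_⟩)⟩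
                simp [cb_cost, cbRow, cb_gfun, tfun, m0, m1, m2, m3, m4, a10, a20, a30, a40, a12, a31, a41, a32, a42, a43, a01, a21, a02, a34] at hc ⊢ <;> omega
        · by_cases m3 : (3 : Fin 5) ∈ S
          · by_cases m4 : (4 : Fin 5) ∈ S
            · refine ⟨![0, 2, 1, 3, 4], by decide, fun h => absurd m3 h.2, Or.inl ?_⟩
              simp [cb_cost, cbRow, cb_gfun, tfun, m0, m1, m2, m3, m4, a10, a20, a30, a40, a12, a31, a41, a32, a42, a43, a01, a21, a02, a34] <;> omega
            · refine ⟨![0, 3, 1, 4, 2], by decide, fun h => absurd h.1 m4, Or.inl ?_⟩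
              simp [cb_cost, cbRow, cb_gfun, tfun, m0, m1, m2, m3, m4, a10, a20, a30, a40, a12, a31, a41, a32, a42, a43, a01, a21, a02, a34] <;> omega
          · by_cases m4 : (4 : Fin 5) ∈ S
            · refine ⟨![0, 4, 1, 3, 2], by decide, fun _ => by decide, Or.inl ?_⟩
              simp [cb_cost, cbRow, cb_gfun, tfun, m0, m1, m2, m3, m4, a10, a20, a30, a40, a12, a31, a41, a32, a42, a43, a01, a21, a02, a34] <;> omega
            · refine ⟨![0, 4, 1, 2, 3], by decide, fun h => absurd h.1 m4, Or.inl ?_⟩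
              simp [cb_cost, cbRow, cb_gfun, tfun, m0, m1, m2, m3, m4, a10, a20, a30, a40, a12, a31, a41, a32, a42, a43, a01, a21, a02, a34] <;> omega
      · by_cases m2 : (2 : Fin 5) ∈ S
        · by_cases m3 : (3 : Fin 5) ∈ S
          · by_cases m4 : (4 : Fin 5) ∈ S
            · refine ⟨![0, 1, 2, 3, 4], by decide, fun h => absurd m3 h.2, Or.inl ?_⟩
              simp [cb_cost, cbRow, cb_gfun, tfun, m0, m1, m2, m3, m4, a10, a20, a30, a40, a12, a31, a41, a32, a42, a43, a01, a21, a02, a34] <;> omega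
            · refine ⟨![0, 1, 3, 4, 2], by decide, fun h => absurd h.1 m4, Or.inl ?_⟩
              simp [cb_cost, cbRow, cb_gfun, tfun, m0, m1, m2, m3, m4, a10, a20, a30, a40, a12, a31, a41, a32, a42, a43, a01, a21, a02, a34] <;> omega
          · by_cases m4 : (4 : Fin 5) ∈ S
            · refine ⟨![0, 1, 4, 3, 2], by decide, fun _ => by decide, Or.inl ?_⟩
              simp [cb_cost, cbRow, cb_gfun, tfun, m0, m1, m2, m3, m4, a10, a20, a30, a40, a12, a31, a41, a32, a42, a43, a01, a21, a02, a34] <;> omega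
            · refine ⟨![0, 1, 4, 2, 3], by decide, fun h => absurd h.1 m4, Or.inl ?_⟩
              simp [cb_cost, cbRow, cb_gfun, tfun, m0, m1, m2, m3, m4, a10, a20, a30, a40, a12, a31, a41, a32, a42, a43, a01, a21, a02, a34] <;> omega
        · by_cases m3 : (3 : Fin 5) ∈ S
          · by_cases m4 : (4 : Fin 5) ∈ S
            · refine ⟨![0, 1, 2, 3, 4], by decide, fun h => absurd m3 h.2, Or.inl ?_⟩
              simp [cb_cost, cbRow, cb_gfun, tfun, m0, m1, m2, m3, m4, a10, a20, a30, a40, a12, a31, a41, a32, a42, a43, a01, a21, a02, a34] <;> omega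
            · refine ⟨![0, 1, 2, 3, 4], by decide, fun h => absurd h.1 m4, Or.inl ?_⟩
              simp [cb_cost, cbRow, cb_gfun, tfun, m0, m1, m2, m3, m4, a10, a20, a30, a40, a12, a31, a41, a32, a42, a43, a01, a21, a02, a34] <;> omega
          · by_cases m4 : (4 : Fin 5) ∈ S
            · refine ⟨![0, 1, 2, 4, 3], by decide, fun _ => by decide, Or.inl ?_⟩
              simp [cb_cost, cbRow, cb_gfun, tfun, m0, m1, m2, m3, m4, a10, a20, a30, a40, a12, a31, a41, a32, a42, a43, a01, a21, a02, a34] <;> omega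
            · refine ⟨![0, 1, 2, 3, 4], by decide, fun h => absurd h.1 m4, Or.inl ?_⟩
              simp [cb_cost, cbRow, cb_gfun, tfun, m0, m1, m2, m3, m4, a10, a20, a30, a40, a12, a31, a41, a32, a42, a43, a01, a21, a02, a34] <;> omega

end HB.E
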