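import Pool.Agent.HB.E.Basic

/-!
# HB-E-DD: divided differences of integral polynomials are integral

PLAN.  Let `g = ∏ j ∈ S, (X - C (u j)) ∈ R[X]`, monic.  Divide: `f = g * q + r` with
`r.degree < S.card` (`Polynomial.modByMonic`).  Over `L` the polynomial `r` is the Lagrange
interpolation polynomial of its values (`Lagrange.eq_interpolate`), and
`f (u i) = r (u i)` for `i ∈ S`.  The coefficient of `X ^ (S.card - 1)` of
`Lagrange.interpolate S u y = ∑ i ∈ S, C (y i) * Lagrange.basis S u i` is
`∑ i ∈ S, y i * (∏ j ∈ S.erase i, (u i - u j))⁻¹` (`Lagrange.basis` is the product of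
`C (u i - u j)⁻¹ * (X - C (u j))`), and the coefficient of `r` is in `R`.
(For `S = ∅` the sum is `0`.)  ALTERNATIVE: induction on `S`.
-/

set_option autoImplicit false

open Polynomial

namespace HB.E

universe u
variable {L : Type u} [Field L]

theorem dd_mem {ι : Type} [DecidableEq ι] (R : Subring L) (f : R[X]) (u : ι → L)
    (hu : ∀ i, u i ∈ R) (hinj : Function.Injective u) (S : Finset ι) :
    ∑ i ∈ S, (∏ j ∈ S.erase i, (u i - u j))⁻¹ * f.eval₂ R.subtype (u i) ∈ R := by
  rcases S.eq_empty_or_nonempty with hS | hS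
  · rw [hS, Finset.sum_empty]
    exact R.zero_mem
  -- the monic polynomial with the given roots over `R`
  set w : ι → R := fun i => ⟨u i, hu i⟩ with hw
  set g : R[X] := Lagrange.nodal S w with hg
  have hgm : g.Monic := Lagrange.nodal_monic
  have hgd : g.degree = S.card := Lagrange.degree_nodal
  set r : R[X] := f %ₘ g with hr
  have hrd : r.degree < S.card := by
    rw [← hgd]
    exact Polynomial.degree_modByMonic_lt f hgm
  set P : L[X] := r.map R.subtype with hP
  have hPd : P.degree < S.card := lt_of_le_of_lt Polynomial.degree_map_le hrd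
  have heval : ∀ i ∈ S, P.eval (u i) = f.eval₂ R.subtype (u i) := by
    intro i hi
    rw [hP, Polynomial.eval_map]
    have h1 : f = r + g * (f /ₘ g) := (Polynomial.modByMonic_add_div f g).symm
    conv_rhs => rw [h1]
    rw [Polynomial.eval₂_add, Polynomial.eval₂_mul]
    have h2 : g.eval₂ R.subtype (u i) = 0 := by
      have h3 : u i = R.subtype (w i) := rfl
      rw [h3, Polynomial.eval₂_at_apply, hg, Lagrange.eval_nodal_at_node hi, map_zero]
    rw [h2, zero_mul, add_zero]
  have hc := Lagrange.coeff_eq_sum (s := S) (v := u) hinj.injOn (P := P) hPd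
  have h4 : ∑ i ∈ S, (∏ j ∈ S.erase i, (u i - u j))⁻¹ * f.eval₂ R.subtype (u i) =
      ((r.coeff (S.card - 1) : R) : L) := by
    rw [hP, Polynomial.coeff_map] at hc
    rw [← hP] at hc
    refine Eq.trans ?_ hc.symm
    refine Finset.sum_congr rfl fun i hi => ?_
    rw [heval i hi, div_eq_mul_inv, mul_comm]
  rw [h4]
  exact (r.coeff (S.card - 1)).2


end HB.E
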