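import Pool.Agent.HB.E.Basic

/-!
# HB-E-DegIneq: from pointwise inequalities to degrees

PLAN.  `degH` is additive (`hY.degH_add`), so it is a homomorphism `Y.Div →+ ℚ`, equal to
`D ↦ ∑ n_C degH (single C 1)`; an effective divisor has degree `≥ 0` (`Finsupp.induction` or
`Finsupp.sum_single`).
`degH_mono_mod`: for every nonzero `x` the divisor `div x` exists (`hY.fin`, `Finsupp.ofSupportFinite`)
and has degree `0` (`hY.degH_div`); apply the first part to `D' - D + div x ≥ 0`.
-/

set_option autoImplicit false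

namespace HB.E

universe u
variable {k L : Type u} [Field k] [Field L] [Algebra k L] {Y : Surf k L}

/-- the degree as a homomorphism -/
private noncomputable def dH (hY : DegTheory Y) : Y.Div →+ ℚ :=
  AddMonoidHom.mk' Y.degH hY.degH_add

theorem degH_zero (hY : DegTheory Y) : Y.degH 0 = 0 := map_zero (dH hY)

theorem degH_smul (hY : DegTheory Y) (n : ℤ) (D : Y.Div) : Y.degH (n • D) = n * Y.degH D := by
  have h := map_zsmul (dH hY) n D
  rw [zsmul_eq_mul] at h
  exact h

private theorem degH_nonneg (hY : DegTheory Y) (D : Y.Div) (h : ∀ C, 0 ≤ D C) : 0 ≤ Y.degH D := by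
  have h1 : dH hY D = ∑ C ∈ D.support, (D C : ℚ) * Y.degH (Finsupp.single C 1) := by
    conv_lhs => rw [← Finsupp.sum_single D]
    unfold Finsupp.sum
    rw [map_sum]
    refine Finset.sum_congr rfl fun C _ => ?_
    have h2 : Finsupp.single C (D C) = D C • (Finsupp.single C 1 : Y.Div) := by
      rw [Finsupp.smul_single, smul_eq_mul, mul_one]
    rw [h2]
    exact degH_smul hY _ _
  change 0 ≤ dH hY D
  rw [h1]
  refine Finset.sum_nonneg fun C _ => ?_
  exact mul_nonneg (by exact_mod_cast h C) (hY.degH_pos C).le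

theorem degH_mono (hY : DegTheory Y) (D D' : Y.Div) (hle : ∀ C, D C ≤ D' C) :
    Y.degH D ≤ Y.degH D' := by
  have h1 : 0 ≤ Y.degH (D' - D) := degH_nonneg hY _ (fun C => by
    rw [Finsupp.sub_apply]
    exact sub_nonneg.mpr (hle C))
  have h2 : Y.degH D' = Y.degH (D' - D) + Y.degH D := by
    rw [← hY.degH_add, sub_add_cancel]
  rw [h2]
  linarith

theorem degH_mono_mod (hY : DegTheory Y) (D D' : Y.Div) (x : L) (hx : x ≠ 0)
    (hle : ∀ C : Y.PD, D C ≤ D' C + C.ord x) : Y.degH D ≤ Y.degH D' := by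
  let Dx : Y.Div := Finsupp.ofSupportFinite (fun C : Y.PD => C.ord x) (hY.fin x hx)
  have h1 : Y.degH Dx = 0 := hY.degH_div x Dx ⟨hx, fun C => rfl⟩
  have h2 : Y.degH D ≤ Y.degH (D' + Dx) := degH_mono hY _ _ (fun C => by
    rw [Finsupp.add_apply]
    exact hle C)
  rw [hY.degH_add, h1, add_zero] at h2
  exact h2

omit [Algebra k L] [Field k] in
private theorem dv_one {R : Subring L} {v : L → ℤ} (h : DV R v) : v 1 = 0 := by
  have h1 := h.mul 1 1 one_ne_zero one_ne_zero
  rw [mul_one] at h1
  omega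

omit [Algebra k L] [Field k] in
private theorem dv_zpow {R : Subring L} {v : L → ℤ} (h : DV R v) {x : L} (hx : x ≠ 0) (n : ℤ) :
    v (x ^ n) = n * v x := by
  induction n using Int.induction_on with
  | zero => rw [zpow_zero, dv_one h, zero_mul]
  | succ n ih =>
    rw [zpow_add_one₀ hx, h.mul _ _ (zpow_ne_zero _ hx) hx, ih]
    ring
  | pred n ih =>
    have h1 := h.mul (x ^ (-(n : ℤ) - 1)) x (zpow_ne_zero _ hx) hx
    rw [← zpow_add_one₀ hx, sub_add_cancel, ih] at h1
    linarith

/-- A product of powers, to combine several functions into one. -/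
theorem ord_prod (hY : DegTheory Y) {ι : Type} (s : Finset ι) (f : ι → L) (hf : ∀ i ∈ s, f i ≠ 0)
    (n : ι → ℤ) (C : Y.PD) :
    C.ord (∏ i ∈ s, f i ^ n i) = ∑ i ∈ s, n i * C.ord (f i) := by
  classical
  have hv := hY.dv C
  induction s using Finset.induction_on with
  | empty =>
    rw [Finset.prod_empty, Finset.sum_empty]
    exact dv_one hv
  | insert a s ha ih =>
    have h1 : ∀ i ∈ s, f i ≠ 0 := fun i hi => hf i (Finset.mem_insert_of_mem hi)
    rw [Finset.prod_insert ha, Finset.sum_insert ha,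
      hv.mul _ _ (zpow_ne_zero _ (hf a (Finset.mem_insert_self a s)))
        (Finset.prod_ne_zero_iff.mpr fun i hi => zpow_ne_zero _ (h1 i hi)),
      ih h1, dv_zpow hv (hf a (Finset.mem_insert_self a s))]

end HB.E
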