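import Mathlib

/-!
# HB-E-TriDet: determinant of a matrix which is triangular for the order given by an injection

The matrix is block triangular (`Matrix.BlockTriangular`) for `OrderDual.toDual ∘ p`, and all
blocks have size one since `p` is injective.
-/

set_option autoImplicit false

namespace HB.E

universe u
variable {L : Type u} [Field L]

theorem det_tri {m : ℕ} (M : Matrix (Fin m) (Fin m) L) (p : Fin m → ℕ)
    (hp : Function.Injective p) (h : ∀ i j, p i < p j → M i j = 0) :
    M.det = ∏ i, M i i := by
  classical
  have hb : M.BlockTriangular (fun i => OrderDual.toDual (p i)) := by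
    intro i j hij
    exact h i j (by simpa using hij)
  have hinj : Function.Injective (fun i => OrderDual.toDual (p i)) := by
    intro i j hij
    exact hp (OrderDual.toDual.injective hij)
  rw [hb.det, Finset.prod_image (fun i _ j _ hij => hinj hij)]
  refine Finset.prod_congr rfl (fun i _ => ?_)
  have : Subsingleton {a : Fin m // (fun i => OrderDual.toDual (p i)) a
      = OrderDual.toDual (p i)} := by
    constructor
    intro a b
    exact Subtype.ext (hinj (a.2.trans b.2.symm))
  rw [Matrix.det_eq_elem_of_subsingleton _
    (⟨i, rfl⟩ : {a : Fin m // (fun i => OrderDual.toDual (p i)) a = OrderDual.toDual (p i)})]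
  rfl

end HB.E
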