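import Pool.Agent.HB.E.Forms
import Pool.Agent.HB.E.Bound
import Pool.Agent.HB.E.TriDet

/-!
# HB-E-Ech: the bounds for the degree of `W ∩ Λ` given by an ordering of the five points

`w j = ∑ i, B i j • b (e i)` with `b = bvec k k' μ` and `e : Fin m ≃ S`.

PLAN for `ech_I`.  Apply `bound` with the forms
`ℓ i = A.dd {j | pos j ≤ pos (e i)}` (integral by `LocalAt.dd_mem`).  The matrix `(ℓ i (w j))` is
`(ℓ i (b (e l)))_{i,l} * B`.  The matrix `T = (ℓ i (b (e l)))` satisfies `T i l = 0` if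
`pos (e i) < pos (e l)`: for `e l ≠ k` this is `dd_single`; for `e l = k` the vector is
`e_k + μ e_k'`, and either `μ = 0` or `pos k < pos k'`.  So `det T = ∏ T i i` (`det_tri` with
`p = pos ∘ e`), and `T i i = A.dd _ (Pi.single (e i) 1)` (again `pos k < pos k'` or `μ = 0`), with
value given by `v_dd_self`; the set `{j | pos j ≤ pos i} \ {i}` is `{j | pos j < pos i}` because
`pos` is injective.  Then `bound`: `- v M.det ≤ v T.det + v B.det`.
For `ech_D0` take for the index `i` with `e i = 0` the form `x ↦ (n 0 * δ0)⁻¹ * x 0`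
(`form0_mem`), which vanishes on all other `b (e l)` and has value `(n 0 * δ0)⁻¹` at `b 0`; the
matrix is still triangular (`0 ≠ k, k'` by `hkk`).  Same for `ech_D2`.
(It may be convenient to prove one general lemma with an arbitrary family of forms `ℓ i` with
`T i l = 0` for `pos (e i) < pos (e l)` first.)
-/

set_option autoImplicit false

open scoped Matrix

namespace HB.E

universe u
variable {L : Type u} [Field L] {R : Subring L} {v : L → ℤ} {Λ : Set (Fin 5 → L)}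

private theorem ec_gen (h : DV R v) {m : ℕ} (pos : Fin 5 → ℕ)
    (hpos : Function.Injective pos) (k k' : Fin 5) (μ : L) (S : Finset (Fin 5))
    (w : Fin m → (Fin 5 → L)) (e : Fin m ≃ S) (B : Matrix (Fin m) (Fin m) L) (hB : B.det ≠ 0)
    (hw : ∀ j, w j = ∑ i, B i j • bvec k k' μ (e i : Fin 5))
    (M : Matrix (Fin m) (Fin m) L) (hM : M.det ≠ 0)
    (hMΛ : ∀ c ∈ latt R M, ∑ j, c j • w j ∈ Λ)
    (f : Fin 5 → ((Fin 5 → L) →ₗ[L] L)) (c : Fin 5 → ℤ)
    (hf : ∀ i ∈ S, ∀ x ∈ Λ, f i x ∈ R)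
    (h0 : ∀ i ∈ S, ∀ l ∈ S, pos i < pos l → f i (bvec k k' μ l) = 0)
    (h1 : ∀ i ∈ S, f i (bvec k k' μ i) ≠ 0 ∧ v (f i (bvec k k' μ i)) = - c i) :
    ∑ i ∈ S, c i ≤ v M.det + v B.det := by
  classical
  let T : Matrix (Fin m) (Fin m) L :=
    Matrix.of fun i l => f (e i : Fin 5) (bvec k k' μ (e l : Fin 5))
  have hT : (Matrix.of fun i j => f (e i : Fin 5) (w j)) = T * B := by
    ext i j
    rw [Matrix.of_apply, Matrix.mul_apply, hw j, map_sum]
    refine Finset.sum_congr rfl fun l _ => ?_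
    rw [map_smul, smul_eq_mul, mul_comm]
    rfl
  have hinj : Function.Injective (fun i => pos (e i : Fin 5)) := fun i j hij =>
    e.injective (Subtype.ext (hpos hij))
  have hdet : T.det = ∏ i, T i i :=
    det_tri T (fun i => pos (e i : Fin 5)) hinj (fun i j hij => h0 _ (e i).2 _ (e j).2 hij)
  have hTii : ∀ i ∈ (Finset.univ : Finset (Fin m)), T i i ≠ 0 := fun i _ => (h1 _ (e i).2).1
  have hTne : T.det ≠ 0 := by
    rw [hdet]
    exact Finset.prod_ne_zero_iff.2 hTii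
  have hb := bound h Λ w M hM hMΛ (fun i => f (e i : Fin 5)) (fun i => hf _ (e i).2)
    (by rw [hT, Matrix.det_mul]; exact mul_ne_zero hTne hB)
  rw [hT, Matrix.det_mul, h.mul _ _ hTne hB, hdet, h.prod _ _ hTii] at hb
  have hsum : ∑ i, v (T i i) = - ∑ i ∈ S, c i := by
    rw [← Finset.sum_neg_distrib, ← Finset.sum_coe_sort S (fun i => - c i), ← Equiv.sum_comp e]
    exact Finset.sum_congr rfl fun i _ => (h1 _ (e i).2).2
  rw [hsum] at hb
  omega

private theorem ec_zero (A : LocalAt R v Λ) (pos : Fin 5 → ℕ) (k k' : Fin 5) (μ : L)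
    (hμ : μ = 0 ∨ pos k < pos k') (i l : Fin 5) (hil : pos i < pos l) :
    A.dd (Finset.univ.filter fun j => pos j ≤ pos i) (bvec k k' μ l) = 0 := by
  have hl : l ∉ Finset.univ.filter fun j => pos j ≤ pos i := by
    rw [Finset.mem_filter]
    rintro ⟨_, h⟩
    omega
  unfold bvec
  split_ifs with hk
  · rw [← hk, map_add, map_smul, A.dd_single, A.dd_single, if_neg hl, zero_add]
    rcases hμ with h | h
    · rw [h, zero_smul]
    · rw [if_neg, smul_zero]
      rw [Finset.mem_filter]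
      rintro ⟨_, h'⟩
      rw [hk] at hil
      omega
  · rw [A.dd_single, if_neg hl]

private theorem ec_diag (A : LocalAt R v Λ) (h : DV R v) (pos : Fin 5 → ℕ)
    (hpos : Function.Injective pos) (k k' : Fin 5) (μ : L)
    (hμ : μ = 0 ∨ pos k < pos k') (i : Fin 5) :
    A.dd (Finset.univ.filter fun j => pos j ≤ pos i) (bvec k k' μ i) ≠ 0 ∧
      v (A.dd (Finset.univ.filter fun j => pos j ≤ pos i) (bvec k k' μ i)) =
        - (v (A.n i) + ∑ j ∈ Finset.univ.filter (fun j => pos j < pos i), A.q i j) := by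
  have hi : i ∈ Finset.univ.filter fun j => pos j ≤ pos i := by
    rw [Finset.mem_filter]
    exact ⟨Finset.mem_univ _, le_rfl⟩
  have h1 : A.dd (Finset.univ.filter fun j => pos j ≤ pos i) (bvec k k' μ i) =
      A.dd (Finset.univ.filter fun j => pos j ≤ pos i) (Pi.single i 1) := by
    unfold bvec
    split_ifs with hk
    · rw [← hk, map_add, map_smul]
      rcases hμ with h | h
      · rw [h, zero_smul, add_zero]
      · rw [A.dd_single _ k', if_neg, smul_zero, add_zero]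
        rw [Finset.mem_filter]
        rintro ⟨_, h'⟩
        rw [hk] at h'
        omega
    · rfl
  have h2 : (Finset.univ.filter fun j => pos j ≤ pos i).erase i =
      Finset.univ.filter fun j => pos j < pos i := by
    ext j
    rw [Finset.mem_erase, Finset.mem_filter, Finset.mem_filter]
    constructor
    · rintro ⟨hne, _, hle⟩
      exact ⟨Finset.mem_univ _, lt_of_le_of_ne hle fun h => hne (hpos h)⟩
    · rintro ⟨_, hlt⟩
      exact ⟨fun h => by rw [h] at hlt; omega, Finset.mem_univ _, hlt.le⟩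
  have h3 := A.v_dd_self h _ i hi
  rw [h1]
  rw [h2] at h3
  exact h3

private theorem ec_D (A : LocalAt R v Λ) (h : DV R v) {m : ℕ} (pos : Fin 5 → ℕ)
    (hpos : Function.Injective pos) (k k' : Fin 5) (μ : L) (S : Finset (Fin 5))
    (hμ : μ = 0 ∨ pos k < pos k')
    (w : Fin m → (Fin 5 → L)) (e : Fin m ≃ S) (B : Matrix (Fin m) (Fin m) L) (hB : B.det ≠ 0)
    (hw : ∀ j, w j = ∑ i, B i j • bvec k k' μ (e i : Fin 5))
    (M : Matrix (Fin m) (Fin m) L) (hM : M.det ≠ 0)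
    (hMΛ : ∀ c ∈ latt R M, ∑ j, c j • w j ∈ Λ) (a : Fin 5) (haS : a ∈ S) (hak : a ≠ k)
    (hak' : a ≠ k') (δ : L) (hδ : δ ≠ 0) (hform : ∀ x ∈ Λ, (A.n a * δ)⁻¹ * x a ∈ R) :
    ∑ i ∈ S, v (A.n i) + v δ + cost A.q pos (S.erase a) ≤ v M.det + v B.det := by
  classical
  have hnδ : A.n a * δ ≠ 0 := mul_ne_zero (A.n_ne a) hδ
  let f : Fin 5 → ((Fin 5 → L) →ₗ[L] L) := fun i =>
    if i = a then (A.n a * δ)⁻¹ • LinearMap.proj a else
      A.dd (Finset.univ.filter fun j => pos j ≤ pos i)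
  let c : Fin 5 → ℤ := fun i => v (A.n i) + (if i = a then v δ else
    ∑ j ∈ Finset.univ.filter (fun j => pos j < pos i), A.q i j)
  have hfa : ∀ x, f a x = (A.n a * δ)⁻¹ * x a := by
    intro x
    show (if a = a then (A.n a * δ)⁻¹ • LinearMap.proj a else
      A.dd (Finset.univ.filter fun j => pos j ≤ pos a) : (Fin 5 → L) →ₗ[L] L) x = _
    rw [if_pos rfl]
    rfl
  have hfi : ∀ i, i ≠ a → f i = A.dd (Finset.univ.filter fun j => pos j ≤ pos i) := by
    intro i hi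
    exact if_neg hi
  have hba : ∀ l, l ≠ a → bvec k k' μ l a = 0 := by
    intro l hl
    unfold bvec
    split_ifs with hk
    · rw [Pi.add_apply, Pi.smul_apply, Pi.single_eq_of_ne hak, Pi.single_eq_of_ne hak', smul_zero,
        add_zero]
    · exact Pi.single_eq_of_ne (Ne.symm hl) _
  have hbaa : bvec k k' μ a a = 1 := by
    unfold bvec
    rw [if_neg hak, Pi.single_eq_same]
  have key := ec_gen h pos hpos k k' μ S w e B hB hw M hM hMΛ f c ?_ ?_ ?_
  · refine le_trans (le_of_eq ?_) key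
    show _ = ∑ i ∈ S, (v (A.n i) + (if i = a then v δ else
      ∑ j ∈ Finset.univ.filter (fun j => pos j < pos i), A.q i j))
    rw [Finset.sum_add_distrib, add_assoc]
    congr 1
    rw [← Finset.add_sum_erase S _ haS, if_pos rfl]
    congr 1
    unfold cost
    refine Finset.sum_congr rfl fun i hi => ?_
    rw [if_neg (Finset.ne_of_mem_erase hi)]
  · intro i hi x hx
    by_cases hia : i = a
    · rw [hia, hfa]
      exact hform x hx
    · rw [hfi i hia]
      exact A.dd_mem _ hx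
  · intro i hi l hl hil
    by_cases hia : i = a
    · rw [hia, hfa, hba l, mul_zero]
      rintro rfl
      rw [hia] at hil
      omega
    · rw [hfi i hia]
      exact ec_zero A pos k k' μ hμ i l hil
  · intro i hi
    by_cases hia : i = a
    · rw [hia, hfa, hbaa, mul_one]
      refine ⟨inv_ne_zero hnδ, ?_⟩
      rw [h.inv hnδ, h.mul _ _ (A.n_ne a) hδ]
      show _ = - (v (A.n a) + (if a = a then v δ else _))
      rw [if_pos rfl]
    · rw [hfi i hia]
      have h3 := ec_diag A h pos hpos k k' μ hμ i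
      refine ⟨h3.1, ?_⟩
      rw [h3.2]
      show _ = - (v (A.n i) + (if i = a then v δ else _))
      rw [if_neg hia]

theorem ech_I (A : LocalAt R v Λ) (h : DV R v) {m : ℕ} (pos : Fin 5 → ℕ)
    (hpos : Function.Injective pos) (k k' : Fin 5)
    (hkk : (k = 3 ∧ k' = 4) ∨ (k = 4 ∧ k' = 3)) (μ : L) (S : Finset (Fin 5))
    (hμ : μ = 0 ∨ (k ∈ S ∧ k' ∉ S)) (hp : (k ∈ S ∧ k' ∉ S) → pos k < pos k')
    (w : Fin m → (Fin 5 → L)) (e : Fin m ≃ S) (B : Matrix (Fin m) (Fin m) L) (hB : B.det ≠ 0)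
    (hw : ∀ j, w j = ∑ i, B i j • bvec k k' μ (e i : Fin 5))
    (M : Matrix (Fin m) (Fin m) L) (hM : M.det ≠ 0)
    (hMΛ : ∀ c ∈ latt R M, ∑ j, c j • w j ∈ Λ) :
    ∑ i ∈ S, v (A.n i) + cost A.q pos S ≤ v M.det + v B.det := by
  have hμ' : μ = 0 ∨ pos k < pos k' := hμ.imp_right hp
  have key := ec_gen h pos hpos k k' μ S w e B hB hw M hM hMΛ
    (fun i => A.dd (Finset.univ.filter fun j => pos j ≤ pos i))
    (fun i => v (A.n i) + ∑ j ∈ Finset.univ.filter (fun j => pos j < pos i), A.q i j)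
    (fun i _ x hx => A.dd_mem _ hx)
    (fun i _ l _ hil => ec_zero A pos k k' μ hμ' i l hil)
    (fun i _ => ec_diag A h pos hpos k k' μ hμ' i)
  rw [Finset.sum_add_distrib] at key
  exact key

theorem ech_D0 (A : LocalAt R v Λ) (h : DV R v) {m : ℕ} (pos : Fin 5 → ℕ)
    (hpos : Function.Injective pos) (k k' : Fin 5)
    (hkk : (k = 3 ∧ k' = 4) ∨ (k = 4 ∧ k' = 3)) (μ : L) (S : Finset (Fin 5))
    (hμ : μ = 0 ∨ (k ∈ S ∧ k' ∉ S)) (hp : (k ∈ S ∧ k' ∉ S) → pos k < pos k')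
    (w : Fin m → (Fin 5 → L)) (e : Fin m ≃ S) (B : Matrix (Fin m) (Fin m) L) (hB : B.det ≠ 0)
    (hw : ∀ j, w j = ∑ i, B i j • bvec k k' μ (e i : Fin 5))
    (M : Matrix (Fin m) (Fin m) L) (hM : M.det ≠ 0)
    (hMΛ : ∀ c ∈ latt R M, ∑ j, c j • w j ∈ Λ) (h0 : (0 : Fin 5) ∈ S) :
    ∑ i ∈ S, v (A.n i) + v A.δ0 + cost A.q pos (S.erase 0) ≤ v M.det + v B.det := by
  have hk : (0 : Fin 5) ≠ k ∧ (0 : Fin 5) ≠ k' := by
    rcases hkk with ⟨rfl, rfl⟩ | ⟨rfl, rfl⟩ <;> decide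
  exact ec_D A h pos hpos k k' μ S (hμ.imp_right hp) w e B hB hw M hM hMΛ 0 h0 hk.1 hk.2 A.δ0
    A.δ0_ne (fun x hx => A.form0_mem hx)

theorem ech_D2 (A : LocalAt R v Λ) (h : DV R v) {m : ℕ} (pos : Fin 5 → ℕ)
    (hpos : Function.Injective pos) (k k' : Fin 5)
    (hkk : (k = 3 ∧ k' = 4) ∨ (k = 4 ∧ k' = 3)) (μ : L) (S : Finset (Fin 5))
    (hμ : μ = 0 ∨ (k ∈ S ∧ k' ∉ S)) (hp : (k ∈ S ∧ k' ∉ S) → pos k < pos k')
    (w : Fin m → (Fin 5 → L)) (e : Fin m ≃ S) (B : Matrix (Fin m) (Fin m) L) (hB : B.det ≠ 0)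
    (hw : ∀ j, w j = ∑ i, B i j • bvec k k' μ (e i : Fin 5))
    (M : Matrix (Fin m) (Fin m) L) (hM : M.det ≠ 0)
    (hMΛ : ∀ c ∈ latt R M, ∑ j, c j • w j ∈ Λ) (h2 : (2 : Fin 5) ∈ S) :
    ∑ i ∈ S, v (A.n i) + v A.δ2 + cost A.q pos (S.erase 2) ≤ v M.det + v B.det := by
  have hk : (2 : Fin 5) ≠ k ∧ (2 : Fin 5) ≠ k' := by
    rcases hkk with ⟨rfl, rfl⟩ | ⟨rfl, rfl⟩ <;> decide
  exact ec_D A h pos hpos k k' μ S (hμ.imp_right hp) w e B hB hw M hM hMΛ 2 h2 hk.1 hk.2 A.δ2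
    A.δ2_ne (fun x hx => A.form2_mem hx)

end HB.E
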