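import Pool.Agent.HB.E.Val

/-!
# HB-E-Exist: the intersection of a lattice with a subspace is a lattice

PLAN.  `R` is a discrete valuation ring, in particular a principal ideal domain (every nonzero
ideal is generated by an element of minimal order; or build
`IsDiscreteValuationRing`/`IsPrincipalIdealRing` from `DV`).
Let `N₀ = {c : Fin m → L | ∑ j, c j • w j ∈ Λ}`, an `R`-submodule.  As `w` is linearly independent
there is a linear map `g : (Fin r → L) →ₗ[L] (Fin m → L)` with `g (w j) = Pi.single j 1`
(`LinearIndependent` has a left inverse, `LinearMap.exists_leftInverse_of_injective`); with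
`DV.exists_denom` for the entries of `g` and `hup` one gets `b' ≠ 0` with `b' * c i ∈ R` for all
`c ∈ N₀`; with the entries of `w` and `hlow` one gets `a' ≠ 0` with `a' • c ∈ N₀` for all
`c : Fin m → L` with entries in `R`.
Let `N = {c : Fin m → R | b'⁻¹ • c ∈ N₀}`, a submodule of the free module `Fin m → R` over a PID,
of rank `m` because it contains `(a' * b' ...) • (Fin m → R)`: so it has a basis indexed by
`Fin m` (`Submodule.basisOfPid`, `Submodule.nonempty_basis_of_pid`, rank count).  `M` = the matrix
with these columns, times `b'⁻¹`; `M.det ≠ 0` because the columns are linearly independent over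
`R`, hence over `L` (or because `M * N' = a' • 1` for some integral `N'`).
ALTERNATIVE without PID theory: induction on `m` (Hermite normal form): the last coordinates of the
elements of `N₀` form a fractional ideal `π ^ e R`, `N₀ ∩ {c m = 0}` by induction.
-/

set_option autoImplicit false

open scoped Matrix

namespace HB.E

universe u
variable {L : Type u} [Field L] {R : Subring L} {v : L → ℤ}

private theorem isPrincipalIdealRing (h : DV R v) : IsPrincipalIdealRing R := by
  classical
  refine ⟨fun I => ?_⟩
  by_cases hI : I = ⊥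
  · exact hI ▸ ⟨⟨0, by simp⟩⟩
  obtain ⟨x0, hx0, hx00⟩ := Submodule.exists_mem_ne_zero_of_ne_bot hI
  let P : ℕ → Prop := fun n => ∃ x : R, x ∈ I ∧ x ≠ 0 ∧ v (x : L) = n
  have hP : ∃ n, P n := by
    have h0 : (x0 : L) ≠ 0 := fun h' => hx00 (Subtype.ext h')
    have h1 := h.nonneg x0.2 h0
    exact ⟨(v (x0 : L)).toNat, x0, hx0, hx00, (Int.toNat_of_nonneg h1).symm⟩
  obtain ⟨x, hx, hxne, hvx⟩ := Nat.find_spec hP
  have hxL : (x : L) ≠ 0 := fun h' => hxne (Subtype.ext h')
  refine ⟨⟨x, le_antisymm ?_ ?_⟩⟩
  · intro y hy
    by_cases hy0 : y = 0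
    · subst hy0; exact Submodule.zero_mem _
    have hyL : (y : L) ≠ 0 := fun h' => hy0 (Subtype.ext h')
    have hyn := h.nonneg y.2 hyL
    have hmin : Nat.find hP ≤ (v (y : L)).toNat :=
      Nat.find_min' hP ⟨y, hy, hy0, (Int.toNat_of_nonneg hyn).symm⟩
    have hle : v (x : L) ≤ v (y : L) := by
      rw [hvx]; omega
    have hq := h.div_mem hyL hxL hle
    rw [Submodule.mem_span_singleton]
    refine ⟨⟨_, hq⟩, ?_⟩
    apply Subtype.ext
    simp only [smul_eq_mul, Subring.coe_mul]
    exact div_mul_cancel₀ _ hxL
  · rw [Submodule.span_singleton_le_iff_mem]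
    exact hx

private theorem isFractionRing (h : DV R v) : IsFractionRing R L := by
  refine IsFractionRing.of_field R L ?_
  intro z
  by_cases hz : z = 0
  · exact ⟨0, 1, by simp [hz]⟩
  rcases le_total 0 (v z) with h0 | h0
  · refine ⟨⟨z, (h.mem z hz).2 h0⟩, 1, ?_⟩
    rw [map_one, div_one]
    rfl
  · have h1 : z⁻¹ ∈ R := (h.mem _ (inv_ne_zero hz)).2 (by rw [h.inv hz]; omega)
    refine ⟨1, ⟨z⁻¹, h1⟩, ?_⟩
    have h2 : algebraMap R L ⟨z⁻¹, h1⟩ = z⁻¹ := rfl
    rw [map_one, h2, one_div, inv_inv]

theorem exists_latt {r m : ℕ} (h : DV R v) (Λ : AddSubgroup (Fin r → L))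
    (hR : ∀ c ∈ R, ∀ x ∈ Λ, c • x ∈ Λ) (a b : L) (ha : a ≠ 0) (hb : b ≠ 0)
    (hlow : ∀ x : Fin r → L, (∀ i, x i ∈ R) → a • x ∈ Λ)
    (hup : ∀ x ∈ Λ, ∀ i, b * x i ∈ R)
    (w : Fin m → (Fin r → L)) (hw : LinearIndependent L w) :
    ∃ M : Matrix (Fin m) (Fin m) L, M.det ≠ 0 ∧
      ∀ c : Fin m → L, ∑ j, c j • w j ∈ Λ ↔ c ∈ latt R M := by
  classical
  have hpid : IsPrincipalIdealRing R := isPrincipalIdealRing h
  have hfrac : IsFractionRing R L := isFractionRing h
  -- the submodule of coordinate vectors
  let N : Submodule R (Fin m → L) :=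
    { carrier := {c | ∑ j, c j • w j ∈ Λ}
      add_mem' := by
        intro c d hc hd
        simp only [Set.mem_ofPred_eq, Pi.add_apply, add_smul, Finset.sum_add_distrib] at *
        exact Λ.add_mem hc hd
      zero_mem' := by
        simp
      smul_mem' := by
        intro t c hc
        simp only [Set.mem_ofPred_eq] at *
        have h1 : ∑ j, (t • c) j • w j = (t : L) • ∑ j, c j • w j := by
          rw [Finset.smul_sum]
          refine Finset.sum_congr rfl fun j _ => ?_
          rw [smul_smul]
          rfl
        rw [h1]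
        exact hR _ t.2 _ hc }
  have memN : ∀ c : Fin m → L, c ∈ N ↔ ∑ j, c j • w j ∈ Λ := fun c => Iff.rfl
  -- the left inverse
  obtain ⟨g, hg⟩ : ∃ g : (Fin r → L) →ₗ[L] (Fin m → L), ∀ j, g (w j) = Pi.single j 1 := by
    have hinj : Function.Injective (Fintype.linearCombination L w) :=
      linearIndependent_iff_injective_fintypeLinearCombination.1 hw
    obtain ⟨g, hg⟩ := LinearMap.exists_leftInverse_of_injective (Fintype.linearCombination L w)
      (LinearMap.ker_eq_bot.2 hinj)
    refine ⟨g, fun j => ?_⟩
    have h1 := LinearMap.congr_fun hg (Pi.single j 1)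
    simpa using h1
  have hgsum : ∀ c : Fin m → L, g (∑ j, c j • w j) = c := by
    intro c
    rw [map_sum]
    simp only [map_smul, hg]
    funext i
    simp [Finset.sum_apply, Pi.single_apply]
  -- the upper bound
  obtain ⟨d, hdR, hd0, hd⟩ := h.exists_denom (Finset.univ : Finset (Fin r × Fin m))
    (fun p => g (Pi.single p.1 1) p.2)
  have hup' : ∀ c ∈ N, ∀ j, (b * d) * c j ∈ R := by
    intro c hc j
    have hx := hup _ ((memN c).1 hc)
    set x := ∑ j, c j • w j with hxdef
    have hcx : c = g x := (hgsum c).symm
    have hxs : x = ∑ i, x i • (Pi.single i 1 : Fin r → L) := by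
      funext k
      simp [Finset.sum_apply, Pi.single_apply]
    have hcj : c j = ∑ i, x i * g (Pi.single i 1) j := by
      rw [hcx]
      conv_lhs => rw [hxs]
      rw [map_sum, Finset.sum_apply]
      refine Finset.sum_congr rfl fun i _ => ?_
      rw [map_smul, Pi.smul_apply, smul_eq_mul]
    rw [hcj, Finset.mul_sum]
    refine Subring.sum_mem _ fun i _ => ?_
    have h1 : b * d * (x i * g (Pi.single i 1) j) = (b * x i) * (d * g (Pi.single i 1) j) := by
      ring
    rw [h1]
    exact R.mul_mem (hx i) (hd (i, j) (Finset.mem_univ _))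
  -- the lower bound
  obtain ⟨e, heR, he0, he⟩ := h.exists_denom (Finset.univ : Finset (Fin m × Fin r))
    (fun p => w p.1 p.2)
  have hlow' : ∀ j, (a * e) • (Pi.single j 1 : Fin m → L) ∈ N := by
    intro j
    rw [memN]
    have h1 : ∑ i, ((a * e) • (Pi.single j 1 : Fin m → L)) i • w i = a • (e • w j) := by
      rw [Finset.sum_eq_single j]
      · simp [smul_smul]
      · intro i _ hij
        simp [hij]
      · intro hj
        exact absurd (Finset.mem_univ j) hj
    rw [h1]
    exact hlow _ fun i => he (j, i) (Finset.mem_univ _)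
  have hbd : b * d ≠ 0 := mul_ne_zero hb hd0
  have hae : a * e ≠ 0 := mul_ne_zero ha he0
  -- finitely generated
  have hfg : N.FG := by
    let Q : Submodule R (Fin m → L) :=
      Submodule.span R (Set.range fun j : Fin m => (b * d)⁻¹ • (Pi.single j 1 : Fin m → L))
    have hQ : Q.FG := Submodule.fg_span (Set.finite_range _)
    have hNQ : N ≤ Q := by
      intro c hc
      have h1 : c = ∑ j, (⟨(b * d) * c j, hup' c hc j⟩ : R) •
          ((b * d)⁻¹ • (Pi.single j 1 : Fin m → L)) := by
        funext i
        rw [Finset.sum_apply, Finset.sum_eq_single i]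
        · simp only [Pi.smul_apply, Pi.single_eq_same, smul_eq_mul, mul_one]
          change c i = (b * d * c i) * (b * d)⁻¹
          field_simp
        · intro j _ hji
          simp [Ne.symm hji]
        · intro hi
          exact absurd (Finset.mem_univ i) hi
      rw [h1]
      refine Submodule.sum_mem _ fun j _ => Submodule.smul_mem _ _ (Submodule.subset_span ⟨j, rfl⟩)
    have hfin : Module.Finite R Q := Module.Finite.iff_fg.2 hQ
    have hnoeQ : IsNoetherian R Q := inferInstance
    have hnoe : IsNoetherian R N := isNoetherian_of_le hNQ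
    rw [← Module.Finite.iff_fg]
    infer_instance
  have hlat : N.IsLattice L := by
    refine ⟨hfg, ?_⟩
    rw [eq_top_iff]
    intro c _
    have h1 : c = ∑ j, (c j * (a * e)⁻¹) • ((a * e) • (Pi.single j 1 : Fin m → L)) := by
      funext i
      rw [Finset.sum_apply, Finset.sum_eq_single i]
      · simp only [Pi.smul_apply, Pi.single_eq_same, smul_eq_mul, mul_one]
        field_simp
      · intro j _ hji
        simp [Ne.symm hji]
      · intro hi
        exact absurd (Finset.mem_univ i) hi
    rw [h1]
    exact Submodule.sum_mem _ fun j _ =>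
      Submodule.smul_mem _ _ (Submodule.subset_span (hlow' j))
  have hfree : Module.Free R N := Submodule.IsLattice.free (K := L) N
  have hrank : Module.finrank R N = m := by
    rw [Submodule.IsLattice.finrank_of_pi L N, Fintype.card_fin]
  have hfin : Module.Finite R N := Module.Finite.iff_fg.2 hfg
  let bb : Module.Basis (Fin m) R N := Module.finBasisOfFinrankEq R N hrank
  let bL : Module.Basis (Fin m) L (Fin m → L) := bb.extendOfIsLattice L
  have hbL : ∀ j, bL j = (bb j : Fin m → L) := fun j => Module.Basis.extendOfIsLattice_apply L bb j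
  refine ⟨Matrix.of fun i j => (bb j : Fin m → L) i, ?_, ?_⟩
  · have h1 : LinearIndependent L (Matrix.of fun i j => (bb j : Fin m → L) i).col := by
      have h2 := bL.linearIndependent
      have h3 : (Matrix.of fun i j => (bb j : Fin m → L) i).col = fun j => bL j := by
        funext j i
        rw [hbL]
        rfl
      rw [h3]
      exact h2
    have h4 := Matrix.linearIndependent_cols_iff_isUnit.1 h1
    rw [Matrix.isUnit_iff_isUnit_det] at h4
    exact h4.ne_zero
  · intro c
    rw [← memN]
    constructor
    · intro hc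
      refine ⟨fun j => (bb.repr ⟨c, hc⟩ j : L), fun j => (bb.repr ⟨c, hc⟩ j).2, ?_⟩
      have h1 := bb.sum_repr ⟨c, hc⟩
      have h2 := congrArg (fun z : N => (z : Fin m → L)) h1
      simp only [Submodule.coe_sum, Submodule.coe_smul] at h2
      refine h2.symm.trans ?_
      funext i
      rw [Finset.sum_apply]
      simp only [Matrix.mulVec, dotProduct, Matrix.of_apply]
      refine Finset.sum_congr rfl fun j _ => ?_
      change (bb.repr ⟨c, hc⟩ j : L) * (bb j : Fin m → L) i = _
      rw [mul_comm]
    · rintro ⟨d', hd', rfl⟩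
      have h1 : (Matrix.of fun i j => (bb j : Fin m → L) i) *ᵥ d' =
          ∑ j, (⟨d' j, hd' j⟩ : R) • (bb j : Fin m → L) := by
        funext i
        rw [Finset.sum_apply]
        simp only [Matrix.mulVec, dotProduct, Matrix.of_apply]
        refine Finset.sum_congr rfl fun j _ => ?_
        change _ = d' j * (bb j : Fin m → L) i
        rw [mul_comm]
      rw [h1]
      exact Submodule.sum_mem _ fun j _ => Submodule.smul_mem _ _ (bb j).2

end HB.E
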