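import Pool.Agent.HB.E.Forms

/-!
# HB-E-Std: the lattice `Λ` contains and is contained in multiples of the standard lattice

PLAN.  `std`, direction `→`: `x i = n i * f (u i)`, `n i ∈ R` and `f (u i) ∈ R`.  Direction `←`:
all `u i - u j` (`i ≠ j`) are units (for `q 0 1 = 3 v δ0 = 0`, `q 0 2 = 0`, `q 3 4 = 0` see
`q_values`), `n i` and `δ0, δ2` are units; take the Lagrange polynomial
`f = ∑ i, (x i / n i) * ∏_{j ≠ i} (u i - u j)⁻¹ (X - u j) ∈ R[X]`.
`sandwich`: the same polynomial multiplied by `a`, where `a ∈ R` is chosen (`DV.exists_denom`) such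
that `a * (δ0 * δ2)⁻¹ * (n i)⁻¹ * ∏_{j ≠ i} (u i - u j)⁻¹ ∈ R` for all `i`: then `f = δ0 δ2 * g`
with `g ∈ R[X]`.  Upper bound: `b` with `b * n i ∈ R` for all `i`.
-/

set_option autoImplicit false

open Polynomial

namespace HB.E

universe u
variable {L : Type u} [Field L] {R : Subring L} {v : L → ℤ} {Λ : Set (Fin 5 → L)}

private theorem std_eval_mem (f : R[X]) {z : L} (hz : z ∈ R) : f.eval₂ R.subtype z ∈ R := by
  have h1 : f.eval₂ R.subtype z = R.subtype (f.eval ⟨z, hz⟩) :=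
    Polynomial.eval₂_at_apply R.subtype ⟨z, hz⟩
  rw [h1]
  exact (f.eval ⟨z, hz⟩).2

private theorem std_interp (A : LocalAt R v Λ) (w : Fin 5 → L)
    (hw : ∀ i, w i * ∏ j ∈ Finset.univ.erase i, (A.u i - A.u j)⁻¹ ∈ R) :
    ∃ f : R[X], ∀ i, f.eval₂ R.subtype (A.u i) = w i := by
  refine ⟨∑ i, C (⟨_, hw i⟩ : R) * ∏ j ∈ Finset.univ.erase i, (X - C (⟨A.u j, A.u_mem j⟩ : R)), ?_⟩
  intro k
  rw [eval₂_finsetSum, Finset.sum_eq_single_of_mem k (Finset.mem_univ k)]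
  · rw [eval₂_mul, eval₂_C, eval₂_finsetProd]
    simp only [eval₂_sub, eval₂_X, eval₂_C, Subring.subtype_apply]
    rw [mul_assoc, ← Finset.prod_mul_distrib, Finset.prod_eq_one, mul_one]
    intro j hj
    exact inv_mul_cancel₀ (sub_ne_zero.2 fun he => (Finset.mem_erase.1 hj).1 (A.u_inj he).symm)
  · intro i _ hik
    have h0 : ∏ j ∈ Finset.univ.erase i, eval₂ R.subtype (A.u k)
        (X - C (⟨A.u j, A.u_mem j⟩ : R)) = 0 := by
      refine Finset.prod_eq_zero (Finset.mem_erase.2 ⟨hik.symm, Finset.mem_univ k⟩) ?_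
      rw [eval₂_sub, eval₂_X, eval₂_C]
      exact sub_self _
    rw [eval₂_mul, eval₂_finsetProd, h0, mul_zero]

theorem LocalAt.std (A : LocalAt R v Λ) (h : DV R v) (hn : ∀ i, v (A.n i) = 0)
    (hF : ∀ a k : Fin 5, a < 3 → 3 ≤ k → v (A.u a - A.u k) = 0) (h0 : v A.δ0 = 0)
    (h2 : v A.δ2 = 0) (x : Fin 5 → L) : x ∈ Λ ↔ ∀ i, x i ∈ R := by
  have hval : ∀ i j : Fin 5, i ≠ j → v (A.u i - A.u j) = 0 := by
    have e01 := A.v01
    have e21 := A.v21
    have e02 := A.v02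
    have e34 := A.v34
    rw [h0, mul_zero] at e01
    rw [h2, mul_zero] at e21
    have key : ∀ i j : Fin 5, i < j → v (A.u i - A.u j) = 0 := by
      intro i j hij
      by_cases hi : i < 3
      · by_cases hj : 3 ≤ j
        · exact hF i j hi hj
        · have hcases : (i = 0 ∧ j = 1) ∨ (i = 0 ∧ j = 2) ∨ (i = 1 ∧ j = 2) := by
            revert i j
            decide
          rcases hcases with ⟨rfl, rfl⟩ | ⟨rfl, rfl⟩ | ⟨rfl, rfl⟩
          · exact e01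
          · exact e02
          · rw [DV.sub_comm h]
            exact e21
      · have hcases : i = 3 ∧ j = 4 := by
          revert i j
          decide
        rcases hcases with ⟨rfl, rfl⟩
        exact e34
    intro i j hij
    rcases lt_or_gt_of_ne hij with hlt | hlt
    · exact key i j hlt
    · rw [DV.sub_comm h]
      exact key j i hlt
  have hnR : ∀ i, A.n i ∈ R := fun i => (h.mem _ (A.n_ne i)).2 (hn i).ge
  have hniR : ∀ i, (A.n i)⁻¹ ∈ R := fun i => DV.unit_inv_mem h (A.n_ne i) (hn i)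
  rw [A.mem_iff]
  constructor
  · rintro ⟨f, -, -, hf⟩ i
    rw [hf i]
    exact R.mul_mem (hnR i) (std_eval_mem f (A.u_mem i))
  · intro hx
    obtain ⟨f, hf⟩ := std_interp A (fun i => (A.n i)⁻¹ * x i) (fun i => R.mul_mem
      (R.mul_mem (hniR i) (hx i)) (R.prod_mem fun j hj => DV.unit_inv_mem h
        (sub_ne_zero.2 fun he => (Finset.mem_erase.1 hj).1 (A.u_inj he).symm)
        (hval i j (Finset.mem_erase.1 hj).1.symm)))
    refine ⟨f, ⟨A.δ0⁻¹ * f.eval₂ R.subtype (A.u 0), R.mul_mem (DV.unit_inv_mem h A.δ0_ne h0)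
      (std_eval_mem f (A.u_mem 0)), (mul_inv_cancel_left₀ A.δ0_ne _).symm⟩,
      ⟨A.δ2⁻¹ * f.eval₂ R.subtype (A.u 2), R.mul_mem (DV.unit_inv_mem h A.δ2_ne h2)
      (std_eval_mem f (A.u_mem 2)), (mul_inv_cancel_left₀ A.δ2_ne _).symm⟩, fun i => ?_⟩
    rw [hf i, mul_inv_cancel_left₀ (A.n_ne i)]

theorem LocalAt.sandwich (A : LocalAt R v Λ) (h : DV R v) :
    ∃ a b : L, a ≠ 0 ∧ b ≠ 0 ∧ (∀ x : Fin 5 → L, (∀ i, x i ∈ R) → a • x ∈ Λ) ∧
      ∀ x ∈ Λ, ∀ i, b * x i ∈ R := by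
  obtain ⟨a, haR, ha0, ha⟩ := DV.exists_denom h Finset.univ (fun i : Fin 5 =>
    (A.δ0 * A.δ2)⁻¹ * (A.n i)⁻¹ * ∏ j ∈ Finset.univ.erase i, (A.u i - A.u j)⁻¹)
  obtain ⟨b, hbR, hb0, hb⟩ := DV.exists_denom h Finset.univ A.n
  refine ⟨a, b, ha0, hb0, ?_, ?_⟩
  · intro x hx
    rw [A.mem_iff]
    obtain ⟨g, hg⟩ := std_interp A (fun i => a * (A.δ0 * A.δ2)⁻¹ * (A.n i)⁻¹ * x i) (by
      intro i
      have h1 := R.mul_mem (ha i (Finset.mem_univ i)) (hx i)
      convert! h1 using 1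
      ring)
    have hδ : A.δ0 * A.δ2 ≠ 0 := mul_ne_zero A.δ0_ne A.δ2_ne
    have hf : ∀ i, (C (⟨A.δ0 * A.δ2, R.mul_mem A.δ0_mem A.δ2_mem⟩ : R) * g).eval₂ R.subtype
        (A.u i) = A.δ0 * A.δ2 * g.eval₂ R.subtype (A.u i) := by
      intro i
      rw [eval₂_mul, eval₂_C]
      rfl
    refine ⟨C (⟨A.δ0 * A.δ2, R.mul_mem A.δ0_mem A.δ2_mem⟩ : R) * g,
      ⟨A.δ2 * g.eval₂ R.subtype (A.u 0), R.mul_mem A.δ2_mem (std_eval_mem g (A.u_mem 0)), ?_⟩,
      ⟨A.δ0 * g.eval₂ R.subtype (A.u 2), R.mul_mem A.δ0_mem (std_eval_mem g (A.u_mem 2)), ?_⟩,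
      fun i => ?_⟩
    · rw [hf]
      ring
    · rw [hf]
      ring
    · rw [hf, hg, Pi.smul_apply, smul_eq_mul]
      have := A.n_ne i
      have := A.δ0_ne
      have := A.δ2_ne
      field_simp
  · intro x hx i
    obtain ⟨f, -, -, hf⟩ := (A.mem_iff x).1 hx
    rw [hf i, ← mul_assoc]
    exact R.mul_mem (hb i (Finset.mem_univ i)) (std_eval_mem f (A.u_mem i))

end HB.E
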