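import Pool.Agent.HB.E.Exist
import Pool.Agent.HB.E.Std

/-!
# HB-E-GExist: the first Chern class of `W ∩ E` exists as a divisor

PLAN.  For every `C` the lattice `atDiv E C` is stable under multiplication by `O_C` (closure of a
set stable under multiplication; `AddSubgroup.closure_induction`), and `LocalAt.sandwich` and
`exists_latt` give `M C`.  (`atDiv E C` is an `AddSubgroup`.)  Put `D C = - C.ord (M C).det`.
FINITE SUPPORT: outside a finite set of `C` one has: `C.ord (n i) = 0` for all `i` (by
`rel0 … rel4`: all the divisors `F, D0, D2, V, Z` vanish at `C` and `C.ord (ρ i) = 0`, `hY.fin`),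
`F a k C = 0`, `D0 C = D2 C = 0`, so `LocalAt.std` gives `atDiv E C = O_C ^ 5`; moreover all
entries of the `w j` are in `O_C`, and a chosen nonzero `m × m` minor of `w` (it exists by linear
independence) has order `0` at `C`; then `∑ c j • w j ∈ O_C ^ 5 ↔ ∀ j, c j ∈ O_C` (Cramer /
inverse of the `m × m` submatrix), i.e. `latt O_C (M C) = latt O_C 1`, so `M C` and its inverse have
entries in `O_C` and `C.ord (M C).det = 0`.  (Entries which are `0` need care with `C.ord 0`; use
membership in the ring instead.)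
`Finsupp.onFinset`/`Finsupp.ofSupportFinite` gives `D`.
-/

set_option autoImplicit false

open scoped Matrix

namespace HB.E

universe u
variable {k L : Type u} [Field k] [Field L] [Algebra k L]

private theorem atDiv_smul {Y : Surf k L} {E : Y.Pt → Set (Fin 5 → L)} (C : Y.PD) {c : L}
    (hc : c ∈ C.1.toSubring) {x : Fin 5 → L} (hx : x ∈ atDiv E C) : c • x ∈ atDiv E C := by
  unfold atDiv at hx ⊢
  induction hx using AddSubgroup.closure_induction with
  | mem x hx =>
    obtain ⟨P, hP, e, he, c', hc', rfl⟩ := hx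
    exact AddSubgroup.subset_closure ⟨P, hP, e, he, c * c', mul_mem hc hc', by rw [mul_smul]⟩
  | zero => rw [smul_zero]; exact zero_mem _
  | add x y _ _ hx hy => rw [smul_add]; exact add_mem hx hy
  | neg x _ hx => rw [smul_neg]; exact neg_mem hx

private theorem ord_det_zero {R : Subring L} {v : L → ℤ} (h : DV R v) {m : ℕ}
    (M : Matrix (Fin m) (Fin m) L) (hM : M.det ≠ 0)
    (hl : ∀ c : Fin m → L, c ∈ latt R M ↔ ∀ j, c j ∈ R) : v M.det = 0 := by
  have hs : ∀ j : Fin m, ∀ l, (Pi.single j 1 : Fin m → L) l ∈ R := by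
    intro j l
    rw [Pi.single_apply]
    split_ifs
    · exact one_mem _
    · exact zero_mem _
  have hMR : ∀ i j, M i j ∈ R := by
    intro i j
    have h1 : M *ᵥ (Pi.single j 1) ∈ latt R M := ⟨Pi.single j 1, hs j, rfl⟩
    have h2 := (hl _).1 h1 i
    rw [Matrix.mulVec_single_one] at h2
    exact h2
  have hn : ∀ j : Fin m, ∃ n : Fin m → L, (∀ l, n l ∈ R) ∧ Pi.single j 1 = M *ᵥ n :=
    fun j => (hl _).2 (hs j)
  choose n hn1 hn2 using hn
  have hMN : M * (Matrix.of fun i j => n j i) = 1 := by
    ext i j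
    have h3 : (M * (Matrix.of fun i j => n j i)) i j = (M *ᵥ n j) i := rfl
    rw [h3, ← hn2 j, Matrix.one_apply, Pi.single_apply]
  have hdet := congrArg Matrix.det hMN
  rw [Matrix.det_mul, Matrix.det_one] at hdet
  have hN0 : (Matrix.of fun i j => n j i).det ≠ 0 := right_ne_zero_of_mul_eq_one hdet
  have h4 := h.mul _ _ hM hN0
  rw [hdet, h.one] at h4
  have h5 := h.nonneg (DV.det_mem R M hMR) hM
  have h6 := h.nonneg (DV.det_mem R (Matrix.of fun i j => n j i) (fun i j => hn1 j i)) hN0
  omega

theorem exists_isC1 {Y : Surf k L} (hY : DegTheory Y) {E : Y.Pt → Set (Fin 5 → L)}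
    {θ : Matrix (Fin 5) (Fin 5) (Ω[L⁄k])} (d : StabData Y E θ) {m : ℕ}
    (w : Fin m → (Fin 5 → L)) (hw : LinearIndependent L w) :
    ∃ D : Y.Div, IsC1 E w D := by
  have hlat : ∀ C : Y.PD, ∃ M : Matrix (Fin m) (Fin m) L, M.det ≠ 0 ∧
      ∀ c : Fin m → L, ∑ j, c j • w j ∈ atDiv E C ↔ c ∈ latt C.1.toSubring M := by
    intro C
    obtain ⟨a, b, ha, hb, hlow, hup⟩ := (d.loc C).sandwich (hY.dv C)
    exact exists_latt (hY.dv C) (atDiv E C) (fun c hc x hx => atDiv_smul C hc hx) a b ha hb
      hlow hup w hw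
  choose M hM1 hM2 using hlat
  -- a left inverse of `c ↦ ∑ c j • w j`
  have hker : LinearMap.ker (Fintype.linearCombination L w) = ⊥ := by
    rw [LinearMap.ker_eq_bot]
    exact linearIndependent_iff_injective_fintypeLinearCombination.1 hw
  obtain ⟨g, hg⟩ := (Fintype.linearCombination L w).exists_leftInverse_of_injective hker
  have hgw : ∀ c : Fin m → L, g (∑ j, c j • w j) = c := by
    intro c
    have := LinearMap.congr_fun hg c
    simpa [Fintype.linearCombination_apply] using this
  have hord : ∀ x : L, {C : Y.PD | x ≠ 0 ∧ C.ord x ≠ 0}.Finite := by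
    intro x
    by_cases hx : x = 0
    · simp [hx]
    · exact (hY.fin x hx).subset fun C hC => hC.2
  have hB : ((⋃ a, ⋃ k, Function.support (d.F a k)) ∪ Function.support d.D0 ∪
      Function.support d.D2 ∪ Function.support d.V ∪ (⋃ i, Function.support (d.Z i)) ∪
      (⋃ i, {C : Y.PD | d.ρ i ≠ 0 ∧ C.ord (d.ρ i) ≠ 0}) ∪
      (⋃ j, ⋃ i, {C : Y.PD | w j i ≠ 0 ∧ C.ord (w j i) ≠ 0}) ∪
      (⋃ i : Fin 5, ⋃ j, {C : Y.PD | g (Pi.single i 1) j ≠ 0 ∧
        C.ord (g (Pi.single i 1) j) ≠ 0})).Finite := by
    refine ((((((Set.Finite.union ?_ ?_).union ?_).union ?_).union ?_).union ?_).union ?_).union ?_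
    · exact Set.finite_iUnion fun a => Set.finite_iUnion fun k => (d.F a k).finite_support
    · exact d.D0.finite_support
    · exact d.D2.finite_support
    · exact d.V.finite_support
    · exact Set.finite_iUnion fun i => (d.Z i).finite_support
    · exact Set.finite_iUnion fun i => hord _
    · exact Set.finite_iUnion fun j => Set.finite_iUnion fun i => hord _
    · exact Set.finite_iUnion fun i => Set.finite_iUnion fun j => hord _
  have hfin : (Function.support fun C : Y.PD => - C.ord (M C).det).Finite := by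
    refine hB.subset ?_
    intro C hC
    by_contra hcon
    simp only [Set.mem_union, Set.mem_iUnion, Set.mem_setOf_eq, not_or, not_exists, not_and,
      Function.mem_support, not_not] at hcon
    obtain ⟨⟨⟨⟨⟨⟨⟨hF, hD0⟩, hD2⟩, hV⟩, hZ⟩, hρ⟩, hwo⟩, hgo⟩ := hcon
    apply hC
    have hdv := hY.dv C
    have hmem : ∀ x : L, (x ≠ 0 → C.ord x = 0) → x ∈ C.1.toSubring := by
      intro x hx
      by_cases h0 : x = 0
      · rw [h0]; exact zero_mem _
      · exact (hdv.mem x h0).2 (hx h0).ge
    have hρ' : ∀ i, C.ord (d.ρ i) = 0 := fun i => hρ i (d.ρ_ne i)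
    have hn : ∀ i, C.ord ((d.loc C).n i) = 0 := by
      intro i
      fin_cases i
      · have h := d.rel0 C
        rw [hρ', hZ, hF, hF, hD0, hV] at h
        simp only [Fin.zero_eta]
        omega
      · have h := d.rel1 C
        rw [hρ', hZ, hF, hF, hD0, hD2, hV] at h
        simp only [Fin.mk_one]
        omega
      · have h := d.rel2 C
        rw [hρ', hZ, hF, hF, hD2, hV] at h
        simp only [Fin.reduceFinMk]
        omega
      · have h := d.rel3 C
        rw [hρ', hF, hF, hF, hV] at h
        simp only [Fin.reduceFinMk]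
        omega
      · have h := d.rel4 C
        rw [hρ', hF, hF, hF, hV] at h
        simp only [Fin.reduceFinMk]
        omega
    have hstd : ∀ x : Fin 5 → L, x ∈ atDiv E C ↔ ∀ i, x i ∈ C.1.toSubring := by
      intro x
      exact (d.loc C).std hdv hn
        (fun a k ha hk => by rw [d.locF C a k ha hk, hF])
        (by rw [d.locD0, hD0]) (by rw [d.locD2, hD2]) x
    have hl : ∀ c : Fin m → L, c ∈ latt C.1.toSubring (M C) ↔ ∀ j, c j ∈ C.1.toSubring := by
      intro c
      rw [← hM2 C c, hstd]
      constructor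
      · intro h j
        have h1 : c = g (∑ j, c j • w j) := (hgw c).symm
        have h2 : (∑ j, c j • w j) = ∑ i, (∑ j, c j • w j) i • (Pi.single i 1 : Fin 5 → L) :=
          pi_eq_sum_univ' _
        rw [h1, h2, map_sum, Finset.sum_apply]
        refine sum_mem fun i _ => ?_
        rw [map_smul, Pi.smul_apply, smul_eq_mul]
        exact mul_mem (h i) (hmem _ (hgo i j))
      · intro h i
        rw [Finset.sum_apply]
        refine sum_mem fun j _ => ?_
        rw [Pi.smul_apply, smul_eq_mul]
        exact mul_mem (h j) (hmem _ (hwo j i))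
    change - C.ord (M C).det = 0
    rw [ord_det_zero hdv (M C) (hM1 C) hl, neg_zero]
  refine ⟨Finsupp.ofSupportFinite (fun C : Y.PD => - C.ord (M C).det) hfin, ?_⟩
  intro C
  exact ⟨M C, hM1 C, rfl, hM2 C⟩

end HB.E
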