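import Pool.Agent.HB.E.Forms

/-!
# HB-E-Frame: a large determinant of vectors of `Λ`

PLAN.  By `q_values` one of `v δ0`, `v δ2` is `0`; by the symmetry `0 ↔ 2` (or by doing it twice)
suppose `v δ2 = 0`.  Use the points in the order `p = (0, 1, 3, 4, 2)` and the polynomials
`f₀ = δ0`, `f₁ = X - u 0`, `f₂ = (X - u 0)(X - u 1)`, `f₃ = (X - u 0)(X - u 1)(X - u 3)`,
`f₄ = (X - u 0)(X - u 1)(X - u 3)(X - u 4)` in `R[X]`; the `j`-th column of `G` is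
`(n i * f_j (u i))_i`.  It is in `Λ`: `f_j (u 0)` is `δ0` or `0`, and `f (u 2) = δ2 * c` with
`c = f (u 2) / δ2 ∈ R` because `δ2` is a unit.  After permuting the rows by `p` the matrix
`(f_j (u i))` is lower triangular with diagonal `δ0, u1-u0, (u3-u0)(u3-u1), …`, so
`v det = ∑ v (n i) + v δ0 + (sum of q over all pairs)`, and
`q 0 1 = 3 v δ0`, `q 2 1 = 3 v δ2`, `q 0 2 = q 3 4 = 0`.
(The determinant of a `5 × 5` triangular matrix: `Matrix.det_succ_row_zero`/`Matrix.det_of_lowerTriangular`,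
or write `G` as a product.)
-/

set_option autoImplicit false

open scoped Matrix
open Polynomial

namespace HB.E

universe u
variable {L : Type u} [Field L] {R : Subring L} {v : L → ℤ} {Λ : Set (Fin 5 → L)}


private theorem det_a (u : Fin 5 → L) (δ : L) (V : Matrix (Fin 5) (Fin 5) L)
    (h0 : ∀ i, V i 0 = δ) (h1 : ∀ i, V i 1 = u i - u 0) (h2 : ∀ i, V i 2 = (u i - u 0) * (u i - u 1))
    (h3 : ∀ i, V i 3 = (u i - u 0) * (u i - u 1) * (u i - u 3))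
    (h4 : ∀ i, V i 4 = (u i - u 0) * (u i - u 1) * (u i - u 3) * (u i - u 4)) :
    V.det = δ * ((u 1 - u 0) * ((u 2 - u 0) * ((u 2 - u 1) * ((u 3 - u 0) * ((u 3 - u 1) *
      ((u 4 - u 0) * ((u 4 - u 1) * ((u 2 - u 3) * ((u 2 - u 4) * (u 4 - u 3)))))))))) := by
  have hV : V = !![δ, 0, 0, 0, 0; δ, u 1 - u 0, 0, 0, 0;
      δ, u 2 - u 0, (u 2 - u 0) * (u 2 - u 1), (u 2 - u 0) * (u 2 - u 1) * (u 2 - u 3),
        (u 2 - u 0) * (u 2 - u 1) * (u 2 - u 3) * (u 2 - u 4);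
      δ, u 3 - u 0, (u 3 - u 0) * (u 3 - u 1), 0, 0;
      δ, u 4 - u 0, (u 4 - u 0) * (u 4 - u 1), (u 4 - u 0) * (u 4 - u 1) * (u 4 - u 3), 0] := by
    ext i j
    fin_cases i <;> fin_cases j <;> simp [h0, h1, h2, h3, h4]
  rw [hV]
  simp [Matrix.det_succ_row_zero, Fin.sum_univ_succ, Fin.succAbove, -mul_eq_mul_left_iff, -mul_eq_mul_right_iff]
  ring

private theorem det_b (u : Fin 5 → L) (δ : L) (V : Matrix (Fin 5) (Fin 5) L)
    (h0 : ∀ i, V i 0 = δ) (h1 : ∀ i, V i 1 = u i - u 2) (h2 : ∀ i, V i 2 = (u i - u 2) * (u i - u 1))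
    (h3 : ∀ i, V i 3 = (u i - u 2) * (u i - u 1) * (u i - u 3))
    (h4 : ∀ i, V i 4 = (u i - u 2) * (u i - u 1) * (u i - u 3) * (u i - u 4)) :
    V.det = -(δ * ((u 1 - u 2) * ((u 0 - u 2) * ((u 0 - u 1) * ((u 3 - u 2) * ((u 3 - u 1) *
      ((u 4 - u 2) * ((u 4 - u 1) * ((u 0 - u 3) * ((u 0 - u 4) * (u 4 - u 3))))))))))) := by
  have hV : V = !![δ, u 0 - u 2, (u 0 - u 2) * (u 0 - u 1), (u 0 - u 2) * (u 0 - u 1) * (u 0 - u 3),
        (u 0 - u 2) * (u 0 - u 1) * (u 0 - u 3) * (u 0 - u 4);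
      δ, u 1 - u 2, 0, 0, 0; δ, 0, 0, 0, 0;
      δ, u 3 - u 2, (u 3 - u 2) * (u 3 - u 1), 0, 0;
      δ, u 4 - u 2, (u 4 - u 2) * (u 4 - u 1), (u 4 - u 2) * (u 4 - u 1) * (u 4 - u 3), 0] := by
    ext i j
    fin_cases i <;> fin_cases j <;> simp [h0, h1, h2, h3, h4]
  rw [hV]
  simp [Matrix.det_succ_row_zero, Fin.sum_univ_succ, Fin.succAbove, -mul_eq_mul_left_iff, -mul_eq_mul_right_iff]
  ring

private theorem vone (h : DV R v) : v 1 = 0 := by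
  have := h.mul 1 1 one_ne_zero one_ne_zero
  rw [one_mul] at this; omega

private theorem vneg (h : DV R v) (x : L) (hx : x ≠ 0) : v (-x) = v x := by
  have h1 : v (-1) = 0 := by
    have := h.mul (-1) (-1) (by simp) (by simp)
    rw [neg_mul_neg, one_mul, vone h] at this
    omega
  have h2 := h.mul (-1) x (by simp) hx
  rw [neg_one_mul] at h2
  omega

private theorem unit_inv (h : DV R v) {x : L} (hx : x ≠ 0) (h0 : v x = 0) : x⁻¹ ∈ R := by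
  have h1 := h.mul x x⁻¹ hx (inv_ne_zero hx)
  rw [mul_inv_cancel₀ hx, vone h] at h1
  exact (h.mem _ (inv_ne_zero hx)).2 (by omega)

/-- a polynomial gives a vector of the lattice. -/
private theorem mem_poly (A : LocalAt R v Λ) (f : R[X]) (c0 c2 : L) (h0 : c0 ∈ R) (h2 : c2 ∈ R)
    (e0 : f.eval₂ R.subtype (A.u 0) = A.δ0 * c0) (e2 : f.eval₂ R.subtype (A.u 2) = A.δ2 * c2) (x : Fin 5 → L)
    (hx : ∀ i, x i = A.n i * f.eval₂ R.subtype (A.u i)) : x ∈ Λ :=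
  (A.mem_iff x).2 ⟨f, ⟨c0, h0, e0⟩, ⟨c2, h2, e2⟩, hx⟩

private theorem eval_mem (A : LocalAt R v Λ) (f : R[X]) (i : Fin 5) : f.eval₂ R.subtype (A.u i) ∈ R := by
  have : f.eval₂ R.subtype (R.subtype ⟨A.u i, A.u_mem i⟩) = R.subtype (f.eval ⟨A.u i, A.u_mem i⟩) :=
    Polynomial.eval₂_at_apply _ _
  rw [show A.u i = R.subtype ⟨A.u i, A.u_mem i⟩ from rfl, this]
  exact (f.eval ⟨A.u i, A.u_mem i⟩).2

/-- the polynomials. -/
private noncomputable def fpol (A : LocalAt R v Λ) (a : Fin 5) (d : R) : Fin 5 → R[X] :=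
  let U : Fin 5 → R[X] := fun i => X - C ⟨A.u i, A.u_mem i⟩
  ![C d, U a, U a * U 1, U a * U 1 * U 3, U a * U 1 * U 3 * U 4]

private theorem vprod (h : DV R v) {x y : L} (hx : x ≠ 0) (hy : y ≠ 0) : x * y ≠ 0 ∧ v (x * y) = v x + v y :=
  ⟨mul_ne_zero hx hy, h.mul x y hx hy⟩

private theorem vchain (h : DV R v) (x0 x1 x2 x3 x4 x5 x6 x7 x8 x9 x10 : L) (h0 : x0 ≠ 0) (h1 : x1 ≠ 0)
    (h2 : x2 ≠ 0) (h3 : x3 ≠ 0) (h4 : x4 ≠ 0) (h5 : x5 ≠ 0) (h6 : x6 ≠ 0) (h7 : x7 ≠ 0) (h8 : x8 ≠ 0)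
    (h9 : x9 ≠ 0) (h10 : x10 ≠ 0) :
    x0 * (x1 * (x2 * (x3 * (x4 * (x5 * (x6 * (x7 * (x8 * (x9 * x10))))))))) ≠ 0 ∧
    v (x0 * (x1 * (x2 * (x3 * (x4 * (x5 * (x6 * (x7 * (x8 * (x9 * x10)))))))))) =
      v x0 + (v x1 + (v x2 + (v x3 + (v x4 + (v x5 + (v x6 + (v x7 + (v x8 + (v x9 + v x10))))))))) := by
  have e9 := vprod h h9 h10
  have e8 := vprod h h8 e9.1
  have e7 := vprod h h7 e8.1
  have e6 := vprod h h6 e7.1
  have e5 := vprod h h5 e6.1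
  have e4 := vprod h h4 e5.1
  have e3 := vprod h h3 e4.1
  have e2 := vprod h h2 e3.1
  have e1 := vprod h h1 e2.1
  have e0 := vprod h h0 e1.1
  exact ⟨e0.1, by rw [e0.2, e1.2, e2.2, e3.2, e4.2, e5.2, e6.2, e7.2, e8.2, e9.2]⟩

theorem LocalAt.exists_frame (A : LocalAt R v Λ) (h : DV R v) :
    ∃ G : Matrix (Fin 5) (Fin 5) L, (∀ j, (fun i => G i j) ∈ Λ) ∧ G.det ≠ 0 ∧
      v G.det = (∑ i, v (A.n i)) + (A.q 0 3 + A.q 0 4 + A.q 1 3 + A.q 1 4 + A.q 2 3 + A.q 2 4)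
        + 4 * v A.δ0 + 4 * v A.δ2 := by
  obtain ⟨q01, q21, q02, q34, hd0, hd2, hor⟩ := A.q_values h
  have hne : ∀ i j, i ≠ j → A.u i - A.u j ≠ 0 := fun i j hij => sub_ne_zero.2 (fun e => hij (A.u_inj e))
  have hq : ∀ i j, i ≠ j → v (A.u i - A.u j) = A.q i j := fun i j hij => by
    unfold LocalAt.q; rw [if_neg hij]
  have hqs := A.q_symm h
  have hev : ∀ i j : Fin 5, (X - C (⟨A.u i, A.u_mem i⟩ : R)).eval₂ R.subtype (A.u j) = A.u j - A.u i := by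
    intro i j; simp
  have hn : v (∏ i, A.n i) = ∑ i, v (A.n i) ∧ ∏ i, A.n i ≠ 0 := by
    rw [Fin.prod_univ_five, Fin.sum_univ_five]
    have e1 := vprod h (A.n_ne 0) (A.n_ne 1)
    have e2 := vprod h e1.1 (A.n_ne 2)
    have e3 := vprod h e2.1 (A.n_ne 3)
    have e4 := vprod h e3.1 (A.n_ne 4)
    exact ⟨by rw [e4.2, e3.2, e2.2, e1.2], e4.1⟩
  rcases hor with h0 | h2
  · -- `v δ0 = 0`: order `2, 1, 3, 4, 0`
    have hinv := unit_inv h A.δ0_ne h0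
    obtain ⟨f, hf⟩ : ∃ f : Fin 5 → R[X], f = fpol A 2 ⟨A.δ2, A.δ2_mem⟩ := ⟨_, rfl⟩
    have f0 : ∀ i, (f 0).eval₂ R.subtype (A.u i) = A.δ2 := fun i => by
      rw [hf]; simp [fpol]
    have f1 : ∀ i, (f 1).eval₂ R.subtype (A.u i) = A.u i - A.u 2 := fun i => by
      rw [hf]; simp [fpol]
    have f2 : ∀ i, (f 2).eval₂ R.subtype (A.u i) = (A.u i - A.u 2) * (A.u i - A.u 1) := fun i => by
      rw [hf]; simp [fpol, eval₂_mul]
    have f3 : ∀ i, (f 3).eval₂ R.subtype (A.u i) = (A.u i - A.u 2) * (A.u i - A.u 1) * (A.u i - A.u 3) :=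
      fun i => by rw [hf]; simp [fpol, eval₂_mul]
    have f4 : ∀ i, (f 4).eval₂ R.subtype (A.u i) =
        (A.u i - A.u 2) * (A.u i - A.u 1) * (A.u i - A.u 3) * (A.u i - A.u 4) :=
      fun i => by rw [hf]; simp [fpol, eval₂_mul]
    refine ⟨Matrix.diagonal A.n * Matrix.of fun i j => (f j).eval₂ R.subtype (A.u i), ?_, ?_⟩
    · intro j
      refine mem_poly A (f j) (A.δ0⁻¹ * (f j).eval₂ R.subtype (A.u 0)) (if j = 0 then 1 else 0)
        (R.mul_mem hinv (eval_mem A _ _)) (by split_ifs; exacts [R.one_mem, R.zero_mem]) ?_ ?_ _ ?_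
      · rw [← mul_assoc, mul_inv_cancel₀ A.δ0_ne, one_mul]
      · fin_cases j
        · simpa using f0 2
        · simpa using f1 2
        · simpa using f2 2
        · simpa using f3 2
        · simpa using f4 2
      · intro i
        rw [Matrix.diagonal_mul]; rfl
    · have hdet := det_b A.u A.δ2 (Matrix.of fun i j => (f j).eval₂ R.subtype (A.u i)) f0 f1 f2 f3 f4
      rw [Matrix.det_mul, Matrix.det_diagonal, hdet]
      have hc := vchain h A.δ2 (A.u 1 - A.u 2) (A.u 0 - A.u 2) (A.u 0 - A.u 1) (A.u 3 - A.u 2) (A.u 3 - A.u 1)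
        (A.u 4 - A.u 2) (A.u 4 - A.u 1) (A.u 0 - A.u 3) (A.u 0 - A.u 4) (A.u 4 - A.u 3) A.δ2_ne
        (hne _ _ (by decide)) (hne _ _ (by decide)) (hne _ _ (by decide)) (hne _ _ (by decide))
        (hne _ _ (by decide)) (hne _ _ (by decide)) (hne _ _ (by decide)) (hne _ _ (by decide))
        (hne _ _ (by decide)) (hne _ _ (by decide))
      refine ⟨mul_ne_zero hn.2 (neg_ne_zero.2 hc.1), ?_⟩
      rw [h.mul _ _ hn.2 (neg_ne_zero.2 hc.1), vneg h _ hc.1, hc.2, hn.1]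
      rw [hq 1 2 (by decide), hq 0 2 (by decide), hq 0 1 (by decide), hq 3 2 (by decide), hq 3 1 (by decide),
        hq 4 2 (by decide), hq 4 1 (by decide), hq 0 3 (by decide), hq 0 4 (by decide), hq 4 3 (by decide)]
      rw [hqs 1 2, hqs 3 2, hqs 3 1, hqs 4 2, hqs 4 1, hqs 4 3, q02, q01, q21, q34, h0]
      ring
  · -- `v δ2 = 0`: order `0, 1, 3, 4, 2`
    have hinv := unit_inv h A.δ2_ne h2
    obtain ⟨f, hf⟩ : ∃ f : Fin 5 → R[X], f = fpol A 0 ⟨A.δ0, A.δ0_mem⟩ := ⟨_, rfl⟩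
    have f0 : ∀ i, (f 0).eval₂ R.subtype (A.u i) = A.δ0 := fun i => by
      rw [hf]; simp [fpol]
    have f1 : ∀ i, (f 1).eval₂ R.subtype (A.u i) = A.u i - A.u 0 := fun i => by
      rw [hf]; simp [fpol]
    have f2 : ∀ i, (f 2).eval₂ R.subtype (A.u i) = (A.u i - A.u 0) * (A.u i - A.u 1) := fun i => by
      rw [hf]; simp [fpol, eval₂_mul]
    have f3 : ∀ i, (f 3).eval₂ R.subtype (A.u i) = (A.u i - A.u 0) * (A.u i - A.u 1) * (A.u i - A.u 3) :=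
      fun i => by rw [hf]; simp [fpol, eval₂_mul]
    have f4 : ∀ i, (f 4).eval₂ R.subtype (A.u i) =
        (A.u i - A.u 0) * (A.u i - A.u 1) * (A.u i - A.u 3) * (A.u i - A.u 4) :=
      fun i => by rw [hf]; simp [fpol, eval₂_mul]
    refine ⟨Matrix.diagonal A.n * Matrix.of fun i j => (f j).eval₂ R.subtype (A.u i), ?_, ?_⟩
    · intro j
      refine mem_poly A (f j) (if j = 0 then 1 else 0) (A.δ2⁻¹ * (f j).eval₂ R.subtype (A.u 2))
        (by split_ifs; exacts [R.one_mem, R.zero_mem]) (R.mul_mem hinv (eval_mem A _ _)) ?_ ?_ _ ?_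
      · fin_cases j
        · simpa using f0 0
        · simpa using f1 0
        · simpa using f2 0
        · simpa using f3 0
        · simpa using f4 0
      · rw [← mul_assoc, mul_inv_cancel₀ A.δ2_ne, one_mul]
      · intro i
        rw [Matrix.diagonal_mul]; rfl
    · have hdet := det_a A.u A.δ0 (Matrix.of fun i j => (f j).eval₂ R.subtype (A.u i)) f0 f1 f2 f3 f4
      rw [Matrix.det_mul, Matrix.det_diagonal, hdet]
      have hc := vchain h A.δ0 (A.u 1 - A.u 0) (A.u 2 - A.u 0) (A.u 2 - A.u 1) (A.u 3 - A.u 0) (A.u 3 - A.u 1)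
        (A.u 4 - A.u 0) (A.u 4 - A.u 1) (A.u 2 - A.u 3) (A.u 2 - A.u 4) (A.u 4 - A.u 3) A.δ0_ne
        (hne _ _ (by decide)) (hne _ _ (by decide)) (hne _ _ (by decide)) (hne _ _ (by decide))
        (hne _ _ (by decide)) (hne _ _ (by decide)) (hne _ _ (by decide)) (hne _ _ (by decide))
        (hne _ _ (by decide)) (hne _ _ (by decide))
      refine ⟨mul_ne_zero hn.2 hc.1, ?_⟩
      rw [h.mul _ _ hn.2 hc.1, hc.2, hn.1]
      rw [hq 1 0 (by decide), hq 2 0 (by decide), hq 2 1 (by decide), hq 3 0 (by decide), hq 3 1 (by decide),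
        hq 4 0 (by decide), hq 4 1 (by decide), hq 2 3 (by decide), hq 2 4 (by decide), hq 4 3 (by decide)]
      rw [hqs 1 0, hqs 2 0, hqs 3 0, hqs 3 1, hqs 4 0, hqs 4 1, hqs 4 3, q02, q01, q21, q34, h2]
      ring

end HB.E
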