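import Pool.Agent.HB.E.Ech
import Pool.Agent.HB.E.Comb
import Pool.Agent.HB.E.Frame

/-!
# HB-E-Local: the local inequalities in final form (assembly, proved by helper45)
-/

set_option autoImplicit false

open scoped Matrix

namespace HB.E

universe u
variable {L : Type u} [Field L] {R : Subring L} {v : L → ℤ} {Λ : Set (Fin 5 → L)}

theorem local_upper (A : LocalAt R v Λ) (h : DV R v) {m : ℕ} (k k' : Fin 5)
    (hkk : (k = 3 ∧ k' = 4) ∨ (k = 4 ∧ k' = 3)) (μ : L) (S : Finset (Fin 5))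
    (hμ : μ = 0 ∨ (k ∈ S ∧ k' ∉ S))
    (w : Fin m → (Fin 5 → L)) (e : Fin m ≃ S) (B : Matrix (Fin m) (Fin m) L) (hB : B.det ≠ 0)
    (hw : ∀ j, w j = ∑ i, B i j • bvec k k' μ (e i : Fin 5))
    (M : Matrix (Fin m) (Fin m) L) (hM : M.det ≠ 0)
    (hMΛ : ∀ c ∈ latt R M, ∑ j, c j • w j ∈ Λ) :
    6 * ∑ i ∈ S, v (A.n i) + tfun A.q (v A.δ0) (v A.δ2) S + gfun A.q S ≤
      6 * v M.det + 6 * v B.det := by
  obtain ⟨h01, h21, h02, h34, hd0, hd2, -⟩ := A.q_values h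
  obtain ⟨pos, hinj, hp, hc⟩ := comb A.q (v A.δ0) (v A.δ2) (A.q_symm h) (A.q_nonneg h)
    (A.q_ultra h) h01 h21 h02 h34 hd0 hd2 k k' hkk S
  rcases hc with hc | ⟨h0, hc⟩ | ⟨h2, hc⟩
  · have := ech_I A h pos hinj k k' hkk μ S hμ hp w e B hB hw M hM hMΛ
    linarith
  · have := ech_D0 A h pos hinj k k' hkk μ S hμ hp w e B hB hw M hM hMΛ h0
    linarith
  · have := ech_D2 A h pos hinj k k' hkk μ S hμ hp w e B hB hw M hM hMΛ h2
    linarith

theorem local_lower (A : LocalAt R v Λ) (h : DV R v) (M : Matrix (Fin 5) (Fin 5) L)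
    (hM : M.det ≠ 0)
    (hMΛ : ∀ c : Fin 5 → L, ∑ j, c j • (Pi.single j 1 : Fin 5 → L) ∈ Λ → c ∈ latt R M) :
    v M.det ≤ (∑ i, v (A.n i)) + (A.q 0 3 + A.q 0 4 + A.q 1 3 + A.q 1 4 + A.q 2 3 + A.q 2 4)
        + 4 * v A.δ0 + 4 * v A.δ2 := by
  obtain ⟨G, hG, hd, hv⟩ := A.exists_frame h
  have hb := bound_below h Λ (fun j : Fin 5 => (Pi.single j 1 : Fin 5 → L)) M hM hMΛ G
    (fun l => by
      have : ∑ j, G j l • (Pi.single j 1 : Fin 5 → L) = fun i => G i l := by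
        ext i; simp [Finset.sum_apply, Pi.single_apply]
      rw [this]; exact hG l) hd
  linarith

end HB.E
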