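import Pool.Agent.HB.E.Basic

/-!
# HB-E-Trans: two bases of the same subspace

PLAN.  `bvec k k' μ` (`k ≠ k'`) is a basis of `L ^ 5` (it is linearly independent: unipotent
matrix), so `S.card = finrank (span (bvec '' S)) = m`; choose `e : Fin m ≃ S`
(`Fintype.equivFinOfCardEq` …).  Every `w j` is in the span of the `bvec (e i)`: coefficients `B i j`.
`B.det ≠ 0` because the `w j` are linearly independent (if `B *ᵥ c = 0` with `c ≠ 0` then
`∑ c j • w j = 0`; `Matrix.exists_mulVec_eq_zero_iff`).
-/

set_option autoImplicit false

namespace HB.E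

universe u
variable {L : Type u} [Field L]

theorem bvec_linearIndependent (k k' : Fin 5) (hk : k ≠ k') (μ : L) :
    LinearIndependent L (bvec k k' μ) := by
  rw [Fintype.linearIndependent_iff]
  intro c hc
  have hval : ∀ i j : Fin 5, bvec k k' μ i j =
      (if i = j then 1 else 0) + (if i = k then (if j = k' then μ else 0) else 0) := by
    intro i j
    unfold bvec
    by_cases hi : i = k
    · subst hi
      simp [Pi.single_apply, eq_comm]
    · simp [hi, Pi.single_apply, eq_comm]
  have hev : ∀ j : Fin 5, c j + (if j = k' then c k * μ else 0) = 0 := by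
    intro j
    have h1 := congrFun hc j
    rw [Finset.sum_apply] at h1
    simp only [Pi.smul_apply, smul_eq_mul, hval, mul_add, Finset.sum_add_distrib, mul_ite, mul_one,
      mul_zero, Finset.sum_ite_eq', Finset.mem_univ, if_true, Pi.zero_apply] at h1
    exact h1
  have hck : c k = 0 := by
    have h1 := hev k
    rwa [if_neg hk, add_zero] at h1
  intro i
  have h1 := hev i
  rw [hck, zero_mul, ite_self, add_zero] at h1
  exact h1

theorem exists_trans {m : ℕ} (k k' : Fin 5) (hk : k ≠ k') (μ : L) (S : Finset (Fin 5))
    (w : Fin m → (Fin 5 → L)) (hw : LinearIndependent L w)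
    (hspan : Submodule.span L (Set.range w) =
      Submodule.span L (bvec k k' μ '' (S : Set (Fin 5)))) :
    S.card = m ∧ ∃ (e : Fin m ≃ S) (B : Matrix (Fin m) (Fin m) L), B.det ≠ 0 ∧
      ∀ j, w j = ∑ i, B i j • bvec k k' μ (e i : Fin 5) := by
  classical
  have hli : LinearIndependent L (fun i : S => bvec k k' μ (i : Fin 5)) :=
    (bvec_linearIndependent k k' hk μ).comp _ Subtype.val_injective
  have hrange : bvec k k' μ '' (S : Set (Fin 5)) =
      Set.range (fun i : S => bvec k k' μ (i : Fin 5)) := by
    ext x
    simp
  rw [hrange] at hspan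
  have hcard : S.card = m := by
    have h1 := finrank_span_eq_card hw
    have h2 := finrank_span_eq_card hli
    rw [hspan, h2] at h1
    simpa using h1
  have hmem : ∀ j, ∃ c : S → L, ∑ i, c i • bvec k k' μ (i : Fin 5) = w j := by
    intro j
    have h1 : w j ∈ Submodule.span L (Set.range w) := Submodule.subset_span ⟨j, rfl⟩
    rw [hspan, Submodule.mem_span_range_iff_exists_fun] at h1
    exact h1
  choose c hc using hmem
  set e : Fin m ≃ S := (Finset.equivFinOfCardEq hcard).symm with he
  have hexp : ∀ j, w j = ∑ i, c j (e i) • bvec k k' μ (e i : Fin 5) := by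
    intro j
    rw [← hc j, Equiv.sum_comp e (fun s : S => c j s • bvec k k' μ (s : Fin 5))]
  refine ⟨hcard, e, Matrix.of fun i j => c j (e i), ?_, hexp⟩
  intro hdet
  obtain ⟨v, hv, hv0⟩ := Matrix.exists_mulVec_eq_zero_iff.2 hdet
  apply hv
  have hsum : ∑ j, v j • w j = 0 := by
    calc ∑ j, v j • w j = ∑ j, ∑ i, (v j * c j (e i)) • bvec k k' μ (e i : Fin 5) := by
          refine Finset.sum_congr rfl fun j _ => ?_
          rw [hexp j, Finset.smul_sum]
          refine Finset.sum_congr rfl fun i _ => ?_
          rw [smul_smul]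
      _ = ∑ i, (∑ j, v j * c j (e i)) • bvec k k' μ (e i : Fin 5) := by
          rw [Finset.sum_comm]
          refine Finset.sum_congr rfl fun i _ => ?_
          rw [Finset.sum_smul]
      _ = 0 := by
          refine Finset.sum_eq_zero fun i _ => ?_
          have h1 : ∑ j, v j * c j (e i) = 0 := by
            have h2 := congrFun hv0 i
            rw [Matrix.mulVec, dotProduct] at h2
            rw [Pi.zero_apply] at h2
            rw [← h2]
            refine Finset.sum_congr rfl fun j _ => ?_
            rw [Matrix.of_apply, mul_comm]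
          rw [h1, zero_smul]
  funext j
  exact Fintype.linearIndependent_iff.1 hw v hsum j

end HB.E
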