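import Pool.Agent.HB.E.Inv
import Pool.Agent.HB.E.Trans
import Pool.Agent.HB.E.Local
import Pool.Agent.HB.E.GExist
import Pool.Agent.HB.E.DegIneq

/-!
# HB-E-Final: stability (assembly)
-/

set_option autoImplicit false

open scoped Matrix

namespace HB.E

universe u
variable {k L : Type u} [Field k] [Field L] [Algebra k L]

/-- `degH` as a homomorphism. -/
noncomputable def degHom {Y : Surf k L} (hY : DegTheory Y) : Y.Div →+ ℚ :=
  AddMonoidHom.mk' Y.degH hY.degH_add

theorem degHom_apply {Y : Surf k L} (hY : DegTheory Y) (D : Y.Div) :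
    degHom hY D = Y.degH D := rfl

open Classical in
/-- The divisor `G`. -/
noncomputable def StabData.G {Y : Surf k L} {E : Y.Pt → Set (Fin 5 → L)}
    {θ : Matrix (Fin 5) (Fin 5) (Ω[L⁄k])} (d : StabData Y E θ) (S : Finset (Fin 5)) : Y.Div :=
  ∑ a ∈ ({0, 1, 2} : Finset (Fin 5)), ∑ z ∈ ({3, 4} : Finset (Fin 5)),
    if a ∈ S ∧ z ∉ S then d.F a z else if a ∉ S ∧ z ∈ S then 2 • d.F a z else 0

open Classical in
/-- The sum of the divisors `Z a`, `a ∈ S`, `a < 3`. -/
noncomputable def StabData.ZS {Y : Surf k L} {E : Y.Pt → Set (Fin 5 → L)}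
    {θ : Matrix (Fin 5) (Fin 5) (Ω[L⁄k])} (d : StabData Y E θ) (S : Finset (Fin 5)) : Y.Div :=
  (if (0 : Fin 5) ∈ S then d.Z 0 else 0) + (if (1 : Fin 5) ∈ S then d.Z 1 else 0) +
    (if (2 : Fin 5) ∈ S then d.Z 2 else 0)

theorem degH_ZS {Y : Surf k L} (hY : DegTheory Y) {E : Y.Pt → Set (Fin 5 → L)}
    {θ : Matrix (Fin 5) (Fin 5) (Ω[L⁄k])} (d : StabData Y E θ) (S : Finset (Fin 5)) :
    Y.degH (d.ZS S) = 0 := by
  have h0 : Y.degH 0 = 0 := degH_zero hY
  have z0 := d.degZ 0 (by decide)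
  have z1 := d.degZ 1 (by decide)
  have z2 := d.degZ 2 (by decide)
  unfold StabData.ZS
  rw [hY.degH_add, hY.degH_add]
  split_ifs <;> simp [h0, z0, z1, z2]

theorem exists_cross : ∀ S : Finset (Fin 5), S.Nonempty → S ≠ Finset.univ →
    ∃ a ∈ ({0, 1, 2} : Finset (Fin 5)), ∃ z ∈ ({3, 4} : Finset (Fin 5)),
      (a ∈ S ∧ z ∉ S) ∨ (a ∉ S ∧ z ∈ S) := by
  decide

theorem degH_G_pos {Y : Surf k L} (hY : DegTheory Y) {E : Y.Pt → Set (Fin 5 → L)}
    {θ : Matrix (Fin 5) (Fin 5) (Ω[L⁄k])} (d : StabData Y E θ) (S : Finset (Fin 5))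
    (hS0 : S.Nonempty) (hS1 : S ≠ Finset.univ) : 0 < Y.degH (d.G S) := by
  classical
  obtain ⟨e0, p0⟩ := d.degF 0 (by decide)
  obtain ⟨e1, p1⟩ := d.degF 1 (by decide)
  obtain ⟨e2, p2⟩ := d.degF 2 (by decide)
  rw [← degHom_apply hY] at *
  have key : degHom hY (d.G S) = ∑ a ∈ ({0, 1, 2} : Finset (Fin 5)),
      ∑ z ∈ ({3, 4} : Finset (Fin 5)),
        (if a ∈ S ∧ z ∉ S then (1 : ℚ) else if a ∉ S ∧ z ∈ S then 2 else 0) *
          degHom hY (d.F a z) := by
    unfold StabData.G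
    rw [map_sum]
    refine Finset.sum_congr rfl fun a _ => ?_
    rw [map_sum]
    refine Finset.sum_congr rfl fun z _ => ?_
    split_ifs
    · simp
    · simp
    · simp
  have hpos : ∀ a ∈ ({0, 1, 2} : Finset (Fin 5)), ∀ z ∈ ({3, 4} : Finset (Fin 5)),
      0 < degHom hY (d.F a z) := by
    intro a ha z hz
    simp only [Finset.mem_insert, Finset.mem_singleton] at ha hz
    simp only [degHom_apply] at *
    rcases ha with rfl | rfl | rfl <;> rcases hz with rfl | rfl <;> linarith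
  have hex : ∃ a ∈ ({0, 1, 2} : Finset (Fin 5)), ∃ z ∈ ({3, 4} : Finset (Fin 5)),
      (a ∈ S ∧ z ∉ S) ∨ (a ∉ S ∧ z ∈ S) := exists_cross S hS0 hS1
  rw [key]
  obtain ⟨a, ha, z, hz, hc⟩ := hex
  have hnn : ∀ a z : Fin 5, (0 : ℚ) ≤
      (if a ∈ S ∧ z ∉ S then (1 : ℚ) else if a ∉ S ∧ z ∈ S then 2 else 0) := by
    intro a z; split_ifs <;> norm_num
  have h1 : 0 < ∑ z ∈ ({3, 4} : Finset (Fin 5)),
      (if a ∈ S ∧ z ∉ S then (1 : ℚ) else if a ∉ S ∧ z ∈ S then 2 else 0) *
          degHom hY (d.F a z) := by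
    refine Finset.sum_pos' (fun z' hz' => mul_nonneg (hnn a z') (hpos a ha z' hz').le)
      ⟨z, hz, mul_pos ?_ (hpos a ha z hz)⟩
    rcases hc with hc | hc
    · rw [if_pos hc]; norm_num
    · rw [if_neg (by tauto), if_pos hc]; norm_num
  refine Finset.sum_pos' (fun a' ha' => Finset.sum_nonneg fun z' hz' =>
    mul_nonneg (hnn a' z') (hpos a' ha' z' hz').le) ⟨a, ha, h1⟩

theorem stable_of_data [Infinite L] {Y : Surf k L} (hY : DegTheory Y)
    {E : Y.Pt → Set (Fin 5 → L)} {θ : Matrix (Fin 5) (Fin 5) (Ω[L⁄k])} (d : StabData Y E θ) :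
    Stable Y E θ := by
  classical
  intro m w hm0 hm5 hw hinv
  -- classification of the invariant subspace
  have happl : ∀ x : Fin 5 → L, ∀ i, appl θ x i = x i • d.lam i := by
    intro x i
    have hij : ∀ j, θ i j = Matrix.diagonal d.lam i j := fun j =>
      congrFun (congrFun d.hθ i) j
    unfold appl
    rw [Finset.sum_eq_single i]
    · rw [hij i, Matrix.diagonal_apply_eq]
    · intro j _ hj
      rw [hij j, Matrix.diagonal_apply_ne _ (Ne.symm hj), smul_zero]
    · intro hi; exact absurd (Finset.mem_univ i) hi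
  obtain ⟨k₁, k₂, μ, S, hkk, hμ, hW⟩ := classify d.lam d.lam3 d.lam4 d.lam0 d.lam1 d.lam2
    d.lam01 d.lam02 d.lam12 (Submodule.span L (Set.range w)) (by
      intro x hx φ
      have := hinv x hx φ
      simpa only [happl] using this)
  have hk12 : k₁ ≠ k₂ := by rcases hkk with ⟨rfl, rfl⟩ | ⟨rfl, rfl⟩ <;> decide
  obtain ⟨hcard, e, B, hB, hwB⟩ := exists_trans k₁ k₂ hk12 μ S w hw hW
  obtain ⟨D, hD⟩ := exists_isC1 hY d w hw
  obtain ⟨D', hD'⟩ := exists_isC1 hY d (fun i : Fin 5 => (Pi.single i 1 : Fin 5 → L)) (by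
    have := (Pi.basisFun L (Fin 5)).linearIndependent
    convert this using 1
    ext i j
    simp [Pi.basisFun_apply])
  refine ⟨D, D', hD, hD', ?_⟩
  -- pointwise upper bound
  have hqF : ∀ (C : Y.PD) (a z : Fin 5), a ∈ ({0, 1, 2} : Finset (Fin 5)) →
      z ∈ ({3, 4} : Finset (Fin 5)) → (d.loc C).q a z = d.F a z C := by
    intro C a z ha hz
    have ha' : a < 3 := by
      simp only [Finset.mem_insert, Finset.mem_singleton] at ha
      rcases ha with rfl | rfl | rfl <;> decide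
    have hz' : 3 ≤ z := by
      simp only [Finset.mem_insert, Finset.mem_singleton] at hz
      rcases hz with rfl | rfl <;> decide
    have hne : a ≠ z := by rintro rfl; exact absurd (lt_of_lt_of_le ha' hz') (lt_irrefl _)
    unfold LocalAt.q
    rw [if_neg hne]
    exact d.locF C a z ha' hz'
  have hG : ∀ C : Y.PD, d.G S C = gfun (d.loc C).q S := by
    intro C
    unfold StabData.G gfun
    rw [Finsupp.finsetSum_apply]
    refine Finset.sum_congr rfl fun a ha => ?_
    rw [Finsupp.finsetSum_apply]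
    refine Finset.sum_congr rfl fun z hz => ?_
    rw [hqF C a z ha hz]
    split_ifs <;> simp
  set xi : L := B.det ^ (6 : ℤ) * ∏ i ∈ S, d.ρ i ^ (-2 : ℤ) with hxi
  have hxi0 : xi ≠ 0 := mul_ne_zero (zpow_ne_zero _ hB)
    (Finset.prod_ne_zero_iff.mpr fun i _ => zpow_ne_zero _ (d.ρ_ne i))
  have hordxi : ∀ C : Y.PD, C.ord xi = 6 * C.ord B.det + ∑ i ∈ S, (-2) * C.ord (d.ρ i) := by
    intro C
    rw [hxi, (hY.dv C).mul _ _ (zpow_ne_zero _ hB)
      (Finset.prod_ne_zero_iff.mpr fun i _ => zpow_ne_zero _ (d.ρ_ne i))]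
    have h1 := ord_prod hY S d.ρ (fun i _ => d.ρ_ne i) (fun _ => -2) C
    have h2 := ord_prod hY ({0} : Finset (Fin 1)) (fun _ => B.det) (fun i _ => hB) (fun _ => 6) C
    simp only [Finset.prod_singleton, Finset.sum_singleton] at h2
    rw [h1, h2]
  have hup : ∀ C : Y.PD, ((6 : ℤ) • D + d.G S) C ≤
      ((2 * (m : ℤ)) • d.V + (6 : ℤ) • d.ZS S) C + C.ord xi := by
    intro C
    obtain ⟨M, hM, hDC, hMΛ⟩ := hD C
    have h1 := local_upper (d.loc C) (hY.dv C) k₁ k₂ hkk μ S hμ w e B hB hwB M hM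
      (fun c hc => (hMΛ c).2 hc)
    have r0 := d.rel0 C
    have r1 := d.rel1 C
    have r2 := d.rel2 C
    have r3 := d.rel3 C
    have r4 := d.rel4 C
    have hGC := hG C
    rw [hordxi C]
    have hD0 := d.locD0 C
    have hD2 := d.locD2 C
    have q03 := hqF C 0 3 (by decide) (by decide)
    have q04 := hqF C 0 4 (by decide) (by decide)
    have q13 := hqF C 1 3 (by decide) (by decide)
    have q14 := hqF C 1 4 (by decide) (by decide)
    have q23 := hqF C 2 3 (by decide) (by decide)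
    have q24 := hqF C 2 4 (by decide) (by decide)
    unfold tfun at h1
    rw [hD0, hD2, q03, q04, q13, q14, q23, q24] at h1
    -- sums over `S` as sums over `Fin 5`
    have hs1 : ∑ i ∈ S, C.ord ((d.loc C).n i) =
        ∑ i : Fin 5, if i ∈ S then C.ord ((d.loc C).n i) else 0 := by
      rw [Finset.sum_ite_mem, Finset.univ_inter]
    have hs2 : ∑ i ∈ S, (-2) * C.ord (d.ρ i) =
        ∑ i : Fin 5, if i ∈ S then (-2) * C.ord (d.ρ i) else 0 := by
      rw [Finset.sum_ite_mem, Finset.univ_inter]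
    have hs3 : (m : ℤ) = ∑ i : Fin 5, if i ∈ S then 1 else 0 := by
      rw [Finset.sum_ite_mem, Finset.univ_inter, ← hcard]; simp
    rw [hs1] at h1
    rw [hs2]
    have hZ : d.ZS S C = (if (0 : Fin 5) ∈ S then d.Z 0 C else 0) +
        (if (1 : Fin 5) ∈ S then d.Z 1 C else 0) + (if (2 : Fin 5) ∈ S then d.Z 2 C else 0) := by
      unfold StabData.ZS
      rw [Finsupp.add_apply, Finsupp.add_apply]
      split_ifs <;> simp
    simp only [Finsupp.add_apply, Finsupp.smul_apply, smul_eq_mul, hGC, hZ, hDC, hs3]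
    simp only [Fin.sum_univ_five] at h1 ⊢
    split_ifs at h1 ⊢ <;> linarith
  have hlow : ∀ C : Y.PD, ((5 : ℤ) • d.V + (3 : ℤ) • d.ZS Finset.univ) C ≤
      ((3 : ℤ) • D') C + C.ord (∏ i ∈ Finset.univ, d.ρ i ^ (1 : ℤ)) := by
    intro C
    obtain ⟨M, hM, hDC, hMΛ⟩ := hD' C
    have h1 := local_lower (d.loc C) (hY.dv C) M hM (fun c hc => (hMΛ c).1 hc)
    have r0 := d.rel0 C
    have r1 := d.rel1 C
    have r2 := d.rel2 C
    have r3 := d.rel3 C
    have r4 := d.rel4 C
    have hD0 := d.locD0 C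
    have hD2 := d.locD2 C
    have q03 := hqF C 0 3 (by decide) (by decide)
    have q04 := hqF C 0 4 (by decide) (by decide)
    have q13 := hqF C 1 3 (by decide) (by decide)
    have q14 := hqF C 1 4 (by decide) (by decide)
    have q23 := hqF C 2 3 (by decide) (by decide)
    have q24 := hqF C 2 4 (by decide) (by decide)
    rw [hD0, hD2, q03, q04, q13, q14, q23, q24] at h1
    rw [ord_prod hY Finset.univ d.ρ (fun i _ => d.ρ_ne i) (fun _ => 1) C]
    have hZ : d.ZS Finset.univ C = d.Z 0 C + d.Z 1 C + d.Z 2 C := by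
      unfold StabData.ZS
      simp
    simp only [Finsupp.add_apply, Finsupp.smul_apply, smul_eq_mul, hZ, hDC]
    simp only [Fin.sum_univ_five] at h1 ⊢
    linarith
  -- degrees
  have dup := degH_mono_mod hY _ _ xi hxi0 hup
  have dlow := degH_mono_mod hY _ _ _
    (Finset.prod_ne_zero_iff.mpr fun i _ => zpow_ne_zero _ (d.ρ_ne i)) hlow
  rw [hY.degH_add, hY.degH_add, degH_smul hY, degH_smul hY, degH_smul hY, degH_ZS hY d] at dup
  rw [hY.degH_add, degH_smul hY, degH_smul hY, degH_smul hY, degH_ZS hY d] at dlow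
  have hSne : S.Nonempty := by
    rw [← Finset.card_pos, hcard]; exact hm0
  have hSun : S ≠ Finset.univ := by
    rintro rfl
    rw [Finset.card_univ, Fintype.card_fin] at hcard
    omega
  have hg := degH_G_pos hY d S hSne hSun
  have hmQ : (0 : ℚ) < m := by exact_mod_cast hm0
  push_cast at dup dlow
  have h5 : Y.degH d.V / 3 ≤ Y.degH D' / 5 := by linarith
  have h6 : Y.degH D / m < Y.degH d.V / 3 := by
    rw [div_lt_div_iff₀ hmQ (by norm_num)]
    nlinarith
  have : ((5 : ℕ) : ℚ) = 5 := by norm_num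
  rw [this]
  linarith

end HB.E
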