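import Pool.Agent.HB.E.Basic

/-!
# HB-E-Val: elementary consequences of `DV R v`

PLAN.  Everything follows from `mul`, `mem`, `unif`.
* `one`: `v (1*1) = v 1 + v 1`.  `neg`: `(-1)*(-1) = 1` gives `v (-1) = 0`.
* `add`: let `v x ≤ v y` w.l.o.g.; `y / x ∈ R` (by `mem`), hence `1 + y/x ∈ R`, and
  `x + y = x * (1 + y/x)`.
* `det_mem`: `Matrix.det_apply`, `sum_mem`, `prod_mem` (`Subring.zsmul_mem` for the sign).
* `exists_denom`: take a high power of a uniformiser `π` (`v (π ^ n) = n`).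
-/

set_option autoImplicit false

namespace HB.E.DV

universe u
variable {L : Type u} [Field L] {R : Subring L} {v : L → ℤ}

theorem one (h : DV R v) : v 1 = 0 := by
  have h1 := h.mul 1 1 one_ne_zero one_ne_zero
  rw [mul_one] at h1
  omega

theorem neg (h : DV R v) (x : L) : v (-x) = v x := by
  by_cases hx : x = 0
  · rw [hx, neg_zero]
  have h1 := h.mul (-1) (-1) (neg_ne_zero.2 one_ne_zero) (neg_ne_zero.2 one_ne_zero)
  rw [neg_one_mul, neg_neg, one h] at h1
  have h2 := h.mul (-1) x (neg_ne_zero.2 one_ne_zero) hx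
  rw [neg_one_mul] at h2
  omega

theorem sub_comm (h : DV R v) (x y : L) : v (x - y) = v (y - x) := by
  rw [← neg_sub, neg h]

theorem inv (h : DV R v) {x : L} (hx : x ≠ 0) : v x⁻¹ = - v x := by
  have h1 := h.mul x x⁻¹ hx (inv_ne_zero hx)
  rw [mul_inv_cancel₀ hx, one h] at h1
  omega

theorem div (h : DV R v) {x y : L} (hx : x ≠ 0) (hy : y ≠ 0) : v (x / y) = v x - v y := by
  rw [div_eq_mul_inv, h.mul x y⁻¹ hx (inv_ne_zero hy), inv h hy]
  ring

theorem pow (h : DV R v) {x : L} (hx : x ≠ 0) (n : ℕ) : v (x ^ n) = n * v x := by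
  induction n with
  | zero => rw [pow_zero, one h]; simp
  | succ n ih =>
    rw [pow_succ, h.mul _ _ (pow_ne_zero n hx) hx, ih]
    push_cast
    ring

theorem prod (h : DV R v) {ι : Type} (s : Finset ι) (f : ι → L) (hf : ∀ i ∈ s, f i ≠ 0) :
    v (∏ i ∈ s, f i) = ∑ i ∈ s, v (f i) := by
  classical
  induction s using Finset.induction_on with
  | empty => rw [Finset.prod_empty, Finset.sum_empty, one h]
  | insert a s ha ih =>
    rw [Finset.prod_insert ha, Finset.sum_insert ha, h.mul _ _ (hf a (Finset.mem_insert_self a s))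
      (Finset.prod_ne_zero_iff.2 fun i hi => hf i (Finset.mem_insert_of_mem hi)),
      ih fun i hi => hf i (Finset.mem_insert_of_mem hi)]

theorem add (h : DV R v) {x y : L} (hx : x ≠ 0) (hy : y ≠ 0) (hxy : x + y ≠ 0) :
    min (v x) (v y) ≤ v (x + y) := by
  have key : ∀ {x y : L}, x ≠ 0 → y ≠ 0 → x + y ≠ 0 → v x ≤ v y → v x ≤ v (x + y) := by
    intro x y hx hy hxy hle
    have h1 : y / x ∈ R := by
      rw [h.mem _ (div_ne_zero hy hx), div h hy hx]
      omega
    have h2 : x + y = x * (1 + y / x) := by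
      rw [mul_add, mul_one, mul_div_cancel₀ _ hx]
    have h3 : 1 + y / x ≠ 0 := by
      intro h3
      rw [h3, mul_zero] at h2
      exact hxy h2
    have h4 := (h.mem _ h3).1 (R.add_mem R.one_mem h1)
    rw [h2, h.mul _ _ hx h3]
    omega
  rcases le_total (v x) (v y) with hle | hle
  · rw [min_eq_left hle]
    exact key hx hy hxy hle
  · rw [min_eq_right hle, add_comm x y]
    exact key hy hx (by rwa [add_comm]) hle

theorem nonneg (h : DV R v) {x : L} (hx : x ∈ R) (h0 : x ≠ 0) : 0 ≤ v x := by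
  exact (h.mem x h0).1 hx

theorem div_mem (h : DV R v) {x y : L} (hx : x ≠ 0) (hy : y ≠ 0) (hle : v y ≤ v x) :
    x / y ∈ R := by
  rw [h.mem _ (div_ne_zero hx hy), div h hx hy]
  omega

theorem unit_inv_mem (h : DV R v) {x : L} (hx : x ≠ 0) (h0 : v x = 0) : x⁻¹ ∈ R := by
  rw [h.mem _ (inv_ne_zero hx), inv h hx]
  omega

theorem det_mem {ι : Type} [Fintype ι] [DecidableEq ι] (R : Subring L) (M : Matrix ι ι L)
    (hM : ∀ i j, M i j ∈ R) : M.det ∈ R := by
  rw [Matrix.det_apply]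
  refine R.sum_mem fun σ _ => ?_
  rw [Units.smul_def]
  exact R.zsmul_mem (R.prod_mem fun i _ => hM _ _) _

/-- A common denominator: finitely many elements are made integral, with any prescribed order, by
one nonzero factor from `R`. -/
theorem exists_denom (h : DV R v) {ι : Type} (s : Finset ι) (f : ι → L) :
    ∃ a ∈ R, a ≠ 0 ∧ ∀ i ∈ s, a * f i ∈ R := by
  classical
  obtain ⟨π, hπ0, hπ⟩ := h.unif
  obtain ⟨n, hn⟩ : ∃ n : ℕ, n = ∑ i ∈ s, (v (f i)).natAbs := ⟨_, rfl⟩
  have hv : v (π ^ n) = n := by rw [pow h hπ0, hπ, mul_one]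
  refine ⟨π ^ n, ?_, pow_ne_zero n hπ0, ?_⟩
  · rw [h.mem _ (pow_ne_zero n hπ0), hv]
    omega
  · intro i hi
    by_cases hfi : f i = 0
    · rw [hfi, mul_zero]
      exact R.zero_mem
    rw [h.mem _ (mul_ne_zero (pow_ne_zero n hπ0) hfi), h.mul _ _ (pow_ne_zero n hπ0) hfi, hv]
    have h1 : (v (f i)).natAbs ≤ n := by
      rw [hn]
      exact Finset.single_le_sum (f := fun i => (v (f i)).natAbs) (fun _ _ => Nat.zero_le _) hi
    omega

end HB.E.DV
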