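import Pool.Agent.HB.E.DD
import Pool.Agent.HB.E.Val

/-!
# HB-E-Forms: the integral linear forms on the lattice `Λ`

PLAN.  `dd_mem`: unfold `LocalAt.dd`, `x i = n i * f (u i)`, cancel `n i`, use `dd_mem`.
`form0_mem`: `x 0 = n 0 * (δ0 * c)`.  The others are computations (`LinearMap.sum_apply`,
`Pi.single_apply`, `Finset.sum_eq_single`).  `v_dd_self`: `v` of the inverse of a product.
-/

set_option autoImplicit false

open Polynomial

namespace HB.E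

universe u
variable {L : Type u} [Field L] {R : Subring L} {v : L → ℤ} {Λ : Set (Fin 5 → L)}

theorem LocalAt.dd_mem (A : LocalAt R v Λ) (S : Finset (Fin 5)) {x : Fin 5 → L} (hx : x ∈ Λ) :
    A.dd S x ∈ R := by
  obtain ⟨f, -, -, hf⟩ := (A.mem_iff x).1 hx
  have h1 : A.dd S x =
      ∑ i ∈ S, (∏ j ∈ S.erase i, (A.u i - A.u j))⁻¹ * f.eval₂ R.subtype (A.u i) := by
    unfold LocalAt.dd
    rw [LinearMap.sum_apply]
    refine Finset.sum_congr rfl fun i _ => ?_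
    rw [LinearMap.smul_apply, LinearMap.proj_apply, smul_eq_mul, hf i, mul_inv]
    have := A.n_ne i
    field_simp
  rw [h1]
  exact HB.E.dd_mem R f A.u A.u_mem A.u_inj S

theorem LocalAt.form0_mem (A : LocalAt R v Λ) {x : Fin 5 → L} (hx : x ∈ Λ) :
    (A.n 0 * A.δ0)⁻¹ * x 0 ∈ R := by
  obtain ⟨f, ⟨c, hc, hfc⟩, -, hf⟩ := (A.mem_iff x).1 hx
  have h1 : (A.n 0 * A.δ0)⁻¹ * x 0 = c := by
    rw [hf 0, hfc, ← mul_assoc (A.n 0), inv_mul_cancel_left₀ (mul_ne_zero (A.n_ne 0) A.δ0_ne)]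
  rw [h1]
  exact hc

theorem LocalAt.form2_mem (A : LocalAt R v Λ) {x : Fin 5 → L} (hx : x ∈ Λ) :
    (A.n 2 * A.δ2)⁻¹ * x 2 ∈ R := by
  obtain ⟨f, -, ⟨c, hc, hfc⟩, hf⟩ := (A.mem_iff x).1 hx
  have h1 : (A.n 2 * A.δ2)⁻¹ * x 2 = c := by
    rw [hf 2, hfc, ← mul_assoc (A.n 2), inv_mul_cancel_left₀ (mul_ne_zero (A.n_ne 2) A.δ2_ne)]
  rw [h1]
  exact hc

theorem LocalAt.dd_single (A : LocalAt R v Λ) (S : Finset (Fin 5)) (i : Fin 5) (c : L) :
    A.dd S (Pi.single i c) =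
      if i ∈ S then (A.n i * ∏ j ∈ S.erase i, (A.u i - A.u j))⁻¹ * c else 0 := by
  unfold LocalAt.dd
  rw [LinearMap.sum_apply]
  simp only [LinearMap.smul_apply, LinearMap.proj_apply, smul_eq_mul]
  split_ifs with h
  · rw [Finset.sum_eq_single i]
    · rw [Pi.single_eq_same]
    · intro k _ hk
      rw [Pi.single_eq_of_ne hk, mul_zero]
    · intro h'
      exact absurd h h'
  · refine Finset.sum_eq_zero fun k hk => ?_
    have hki : k ≠ i := by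
      rintro rfl
      exact h hk
    rw [Pi.single_eq_of_ne hki, mul_zero]

theorem LocalAt.v_dd_self (A : LocalAt R v Λ) (h : DV R v) (S : Finset (Fin 5)) (i : Fin 5)
    (hi : i ∈ S) :
    A.dd S (Pi.single i 1) ≠ 0 ∧
      v (A.dd S (Pi.single i 1)) = - (v (A.n i) + ∑ j ∈ S.erase i, A.q i j) := by
  rw [A.dd_single, if_pos hi, mul_one]
  have hf : ∀ j ∈ S.erase i, A.u i - A.u j ≠ 0 := by
    intro j hj
    have h1 : j ≠ i := Finset.ne_of_mem_erase hj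
    exact sub_ne_zero.2 fun h2 => h1 (A.u_inj h2).symm
  have hprod : ∏ j ∈ S.erase i, (A.u i - A.u j) ≠ 0 := Finset.prod_ne_zero_iff.2 hf
  have hne : A.n i * ∏ j ∈ S.erase i, (A.u i - A.u j) ≠ 0 := mul_ne_zero (A.n_ne i) hprod
  refine ⟨inv_ne_zero hne, ?_⟩
  rw [h.inv hne, h.mul _ _ (A.n_ne i) hprod, h.prod _ _ hf]
  congr 2
  refine Finset.sum_congr rfl fun j hj => ?_
  unfold LocalAt.q
  rw [if_neg (Finset.ne_of_mem_erase hj).symm]

/-- `q` is symmetric, nonnegative and ultrametric, and has the prescribed values. -/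
theorem LocalAt.q_symm (A : LocalAt R v Λ) (h : DV R v) (i j : Fin 5) : A.q i j = A.q j i := by
  unfold LocalAt.q
  by_cases hij : i = j
  · rw [if_pos hij, if_pos hij.symm]
  · rw [if_neg hij, if_neg (fun h' => hij h'.symm), h.sub_comm]

theorem LocalAt.q_nonneg (A : LocalAt R v Λ) (h : DV R v) (i j : Fin 5) : 0 ≤ A.q i j := by
  unfold LocalAt.q
  by_cases hij : i = j
  · rw [if_pos hij]
  · rw [if_neg hij]
    exact h.nonneg (R.sub_mem (A.u_mem i) (A.u_mem j)) (sub_ne_zero.2 fun h2 => hij (A.u_inj h2))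

theorem LocalAt.q_ultra (A : LocalAt R v Λ) (h : DV R v) (i j l : Fin 5) (hij : i ≠ j)
    (hil : i ≠ l) (hlj : l ≠ j) : min (A.q i l) (A.q l j) ≤ A.q i j := by
  unfold LocalAt.q
  rw [if_neg hij, if_neg hil, if_neg hlj]
  have h1 : A.u i - A.u j = (A.u i - A.u l) + (A.u l - A.u j) := by ring
  have h2 : A.u i - A.u l ≠ 0 := sub_ne_zero.2 fun h2 => hil (A.u_inj h2)
  have h3 : A.u l - A.u j ≠ 0 := sub_ne_zero.2 fun h2 => hlj (A.u_inj h2)
  have h4 : A.u i - A.u j ≠ 0 := sub_ne_zero.2 fun h2 => hij (A.u_inj h2)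
  rw [h1] at h4 ⊢
  exact h.add h2 h3 h4

theorem LocalAt.q_values (A : LocalAt R v Λ) (h : DV R v) :
    A.q 0 1 = 3 * v A.δ0 ∧ A.q 2 1 = 3 * v A.δ2 ∧ A.q 0 2 = 0 ∧ A.q 3 4 = 0 ∧
      0 ≤ v A.δ0 ∧ 0 ≤ v A.δ2 ∧ (v A.δ0 = 0 ∨ v A.δ2 = 0) := by
  -- last part: ultrametric inequality `min (3 v δ0) (3 v δ2) ≤ v (u 0 - u 2) = 0`
  have e1 : A.q 0 1 = 3 * v A.δ0 := by
    unfold LocalAt.q
    rw [if_neg (by decide), A.v01]
  have e2 : A.q 2 1 = 3 * v A.δ2 := by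
    unfold LocalAt.q
    rw [if_neg (by decide), A.v21]
  have e3 : A.q 0 2 = 0 := by
    unfold LocalAt.q
    rw [if_neg (by decide), A.v02]
  have e4 : A.q 3 4 = 0 := by
    unfold LocalAt.q
    rw [if_neg (by decide), A.v34]
  have n0 : 0 ≤ v A.δ0 := h.nonneg A.δ0_mem A.δ0_ne
  have n2 : 0 ≤ v A.δ2 := h.nonneg A.δ2_mem A.δ2_ne
  refine ⟨e1, e2, e3, e4, n0, n2, ?_⟩
  have h1 := A.q_ultra h 0 2 1 (by decide) (by decide) (by decide)
  rw [e1, A.q_symm h 1 2, e2, e3] at h1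
  rcases min_le_iff.1 h1 with h2 | h2
  · left
    omega
  · right
    omega

end HB.E
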