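import Pool.Agent.HB.E.Basic

/-!
# HB-E-Inv: the subspaces of `L ^ 5` which are invariant under a diagonal Higgs field

`Ω` is an `L`-vector space, `lam : Fin 5 → Ω` with `lam 3 = lam 4 = 0` and `lam 0, lam 1, lam 2`
nonzero and pairwise different; `W` is stable under `x ↦ (φ (x i • lam i))_i` for all linear forms
`φ`.

PLAN.  (1) There is a linear form `φ` such that `φ (lam a) ≠ 0` (`a = 0,1,2`) and
`φ (lam a) ≠ φ (lam b)` for `a ≠ b` in `{0,1,2}`: the vectors `lam a`, `lam a - lam b` are six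
nonzero vectors; for each there is a form not vanishing on it (`Module.exists_dual_forall_apply_ne_zero`
or `Module.Dual` separates points + a finite union of proper subspaces is not everything,
`Subspace.biUnion_ne_univ_of_top_nmem`, `L` infinite).
(2) Put `c i = φ (lam i)`: `W` is stable under `D = diag (c 0, c 1, c 2, 0, 0)`.  Applying the
polynomials in `D` (for instance `D (D - c 1) (D - c 2)`, etc.) one sees: for `x ∈ W` the vectors
`x a • Pi.single a 1` (`a = 0,1,2`) and `x 3 • e 3 + x 4 • e 4` are in `W`.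
(3) Let `J = {a < 3 | e a ∈ W}` and `W₀ = W ∩ span (e 3, e 4)`.  Then `W = span (e a, a ∈ J) + W₀`.
Cases: `W₀ = 0`: `S = J`, `μ = 0`; `W₀ ∋ e 3` and `e 4`: `S = J ∪ {3,4}`, `μ = 0`; otherwise `W₀` is
the line spanned by some `x` with `x 3 ≠ 0` (then `k = 3`, `k' = 4`, `μ = x 4 / x 3`,
`S = J ∪ {3}`) or by `e 4` (`k = 4`, `k' = 3`, `μ = 0`, `S = J ∪ {4}`).
-/

set_option autoImplicit false

namespace HB.E

universe u w
variable {L : Type u} [Field L]

open Polynomial in
private theorem poly_mem (W : Submodule L (Fin 5 → L)) (c : Fin 5 → L)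
    (hD : ∀ x ∈ W, (fun i => c i * x i) ∈ W) (p : L[X]) {x : Fin 5 → L} (hx : x ∈ W) :
    (fun i => p.eval (c i) * x i) ∈ W := by
  have hpow : ∀ n : ℕ, (fun i => c i ^ n * x i) ∈ W := by
    intro n
    induction n with
    | zero => simpa using hx
    | succ n ih =>
      have := hD _ ih
      convert this using 2 with i
      rw [pow_succ]
      ring
  induction p using Polynomial.induction_on' with
  | add p q hp hq =>
    have := W.add_mem hp hq
    convert this using 1
    ext i
    simp [add_mul]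
  | monomial n a =>
    have := W.smul_mem a (hpow n)
    convert this using 1
    ext i
    simp [mul_assoc]

private theorem span_std (W : Submodule L (Fin 5 → L))
    (h : ∀ x ∈ W, ∀ i, x i ≠ 0 → Pi.single i (1 : L) ∈ W) :
    W = Submodule.span L (bvec 3 4 (0 : L) '' {i | Pi.single i (1 : L) ∈ W}) := by
  have hb : ∀ i, bvec 3 4 (0 : L) i = Pi.single i (1 : L) := by
    intro i
    unfold bvec
    split_ifs with hi
    · rw [hi]; simp
    · rfl
  apply le_antisymm
  · intro x hx
    have hs : x = ∑ i, x i • (Pi.single i (1 : L) : Fin 5 → L) := by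
      ext j
      simp [Finset.sum_apply, Pi.single_apply]
    rw [hs]
    refine Submodule.sum_mem _ fun i _ => ?_
    by_cases hi : x i = 0
    · rw [hi, zero_smul]
      exact Submodule.zero_mem _
    · refine Submodule.smul_mem _ _ (Submodule.subset_span ⟨i, h x hx i hi, hb i⟩)
  · rw [Submodule.span_le]
    rintro _ ⟨i, hi, rfl⟩
    rw [hb]
    exact hi

theorem classify [Infinite L] {Ω : Type w} [AddCommGroup Ω] [Module L Ω] (lam : Fin 5 → Ω)
    (h3 : lam 3 = 0) (h4 : lam 4 = 0) (h0 : lam 0 ≠ 0) (h1 : lam 1 ≠ 0) (h2 : lam 2 ≠ 0)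
    (h01 : lam 0 ≠ lam 1) (h02 : lam 0 ≠ lam 2) (h12 : lam 1 ≠ lam 2)
    (W : Submodule L (Fin 5 → L))
    (hW : ∀ x ∈ W, ∀ φ : Ω →ₗ[L] L, (fun i => φ (x i • lam i)) ∈ W) :
    ∃ (k k' : Fin 5) (μ : L) (S : Finset (Fin 5)),
      ((k = 3 ∧ k' = 4) ∨ (k = 4 ∧ k' = 3)) ∧ (μ = 0 ∨ (k ∈ S ∧ k' ∉ S)) ∧
      W = Submodule.span L (bvec k k' μ '' (S : Set (Fin 5))) := by
  classical
  obtain ⟨φ, hφ⟩ := Module.exists_dual_forall_apply_ne_zero (K := L)
    (![lam 0, lam 1, lam 2, lam 0 - lam 1, lam 0 - lam 2, lam 1 - lam 2] : Fin 6 → Ω) (by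
      intro i
      fin_cases i
      · exact h0
      · exact h1
      · exact h2
      · exact sub_ne_zero.2 h01
      · exact sub_ne_zero.2 h02
      · exact sub_ne_zero.2 h12)
  set c : Fin 5 → L := fun i => φ (lam i) with hc
  have c0 : c 0 ≠ 0 := hφ 0
  have c1 : c 1 ≠ 0 := hφ 1
  have c2 : c 2 ≠ 0 := hφ 2
  have c3 : c 3 = 0 := by simp [hc, h3]
  have c4 : c 4 = 0 := by simp [hc, h4]
  have c01 : c 0 - c 1 ≠ 0 := by have := hφ 3; simpa [map_sub] using this
  have c02 : c 0 - c 2 ≠ 0 := by have := hφ 4; simpa [map_sub] using this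
  have c12 : c 1 - c 2 ≠ 0 := by have := hφ 5; simpa [map_sub] using this
  have hD : ∀ x ∈ W, (fun i => c i * x i) ∈ W := by
    intro x hx
    have := hW x hx φ
    convert this using 2 with i
    simp [hc, mul_comm]
  have hP := fun p : Polynomial L => fun {x : Fin 5 → L} (hx : x ∈ W) => poly_mem W c hD p hx
  -- projection to a single coordinate
  have hsm : ∀ (a : Fin 5) (r : L), r ≠ 0 → (Pi.single a r : Fin 5 → L) ∈ W →
      (Pi.single a (1 : L) : Fin 5 → L) ∈ W := by
    intro a r hr h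
    have := W.smul_mem r⁻¹ h
    rw [← Pi.single_smul, smul_eq_mul, inv_mul_cancel₀ hr] at this
    exact this
  have hS0 : ∀ x ∈ W, x 0 ≠ 0 → (Pi.single 0 (1 : L) : Fin 5 → L) ∈ W := by
    intro x hx h
    have := hP (Polynomial.X * (Polynomial.X - Polynomial.C (c 1)) *
      (Polynomial.X - Polynomial.C (c 2))) hx
    refine hsm 0 (c 0 * (c 0 - c 1) * (c 0 - c 2) * x 0)
      (mul_ne_zero (mul_ne_zero (mul_ne_zero c0 c01) c02) h) ?_
    convert this using 1
    ext i
    fin_cases i <;> simp [c3, c4]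
  have hS1 : ∀ x ∈ W, x 1 ≠ 0 → (Pi.single 1 (1 : L) : Fin 5 → L) ∈ W := by
    intro x hx h
    have := hP (Polynomial.X * (Polynomial.C (c 0) - Polynomial.X) *
      (Polynomial.X - Polynomial.C (c 2))) hx
    refine hsm 1 (c 1 * (c 0 - c 1) * (c 1 - c 2) * x 1)
      (mul_ne_zero (mul_ne_zero (mul_ne_zero c1 c01) c12) h) ?_
    convert this using 1
    ext i
    fin_cases i <;> simp [c3, c4]
  have hS2 : ∀ x ∈ W, x 2 ≠ 0 → (Pi.single 2 (1 : L) : Fin 5 → L) ∈ W := by
    intro x hx h
    have := hP (Polynomial.X * (Polynomial.C (c 0) - Polynomial.X) *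
      (Polynomial.C (c 1) - Polynomial.X)) hx
    refine hsm 2 (c 2 * (c 0 - c 2) * (c 1 - c 2) * x 2)
      (mul_ne_zero (mul_ne_zero (mul_ne_zero c2 c02) c12) h) ?_
    convert this using 1
    ext i
    fin_cases i <;> simp [c3, c4]
  have hS34 : ∀ x ∈ W, (![0, 0, 0, x 3, x 4] : Fin 5 → L) ∈ W := by
    intro x hx
    have := hP ((Polynomial.X - Polynomial.C (c 0)) * (Polynomial.X - Polynomial.C (c 1)) *
      (Polynomial.X - Polynomial.C (c 2))) hx
    have h' := W.smul_mem (-(c 0 * c 1 * c 2)⁻¹) this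
    have hne : c 0 * c 1 * c 2 ≠ 0 := mul_ne_zero (mul_ne_zero c0 c1) c2
    convert h' using 1
    ext i
    fin_cases i
    · simp
    · simp
    · simp
    · simp [c3]
      field_simp
    · simp [c4]
      field_simp
  by_cases hcase : (∃ x ∈ W, x 3 ≠ 0) ∧ ¬ (Pi.single 4 (1 : L) : Fin 5 → L) ∈ W
  · obtain ⟨⟨x, hx, hx3⟩, h4W⟩ := hcase
    set μ : L := x 4 / x 3 with hμ
    have hy : (Pi.single 3 1 + μ • Pi.single 4 1 : Fin 5 → L) ∈ W := by
      have := W.smul_mem (x 3)⁻¹ (hS34 x hx)
      convert this using 1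
      ext i
      fin_cases i <;> simp [Pi.single_apply, hμ, hx3]
      field_simp
    have hz : ∀ z ∈ W, z 4 = μ * z 3 := by
      intro z hz
      by_contra hne
      apply h4W
      have h1 := W.sub_mem (hS34 z hz) (W.smul_mem (z 3) hy)
      refine hsm 4 (z 4 - μ * z 3) (sub_ne_zero.2 hne) ?_
      convert h1 using 1
      ext i
      fin_cases i <;> simp [Pi.single_apply]
      ring
    have h3W : ¬ (Pi.single 3 (1 : L) : Fin 5 → L) ∈ W ∨ μ = 0 := by
      by_cases h : μ = 0
      · exact Or.inr h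
      · refine Or.inl fun h3 => ?_
        have := hz _ h3
        simp [Pi.single_apply] at this
        exact h this.symm
    refine ⟨3, 4, μ, (Finset.univ.filter fun i => i < 3 ∧ (Pi.single i (1 : L) : Fin 5 → L) ∈ W) ∪ {3},
      Or.inl ⟨rfl, rfl⟩, Or.inr ⟨by simp, by simp⟩, ?_⟩
    have hbl : ∀ i : Fin 5, i < 3 → bvec 3 4 μ i = Pi.single i 1 := by
      intro i hi
      unfold bvec
      rw [if_neg hi.ne]
    have hb3 : bvec 3 4 μ 3 = Pi.single 3 1 + μ • Pi.single 4 1 := by
      unfold bvec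
      rw [if_pos rfl]
    apply le_antisymm
    · intro z hzW
      have hdec : z = z 0 • (Pi.single 0 (1 : L) : Fin 5 → L) + z 1 • Pi.single 1 (1 : L) +
          z 2 • Pi.single 2 (1 : L) + z 3 • bvec 3 4 μ 3 := by
        rw [hb3]
        ext i
        fin_cases i <;> simp [Pi.single_apply]
        rw [hz z hzW]; ring
      rw [hdec]
      have hterm : ∀ (a : Fin 5), a < 3 → (z a ≠ 0 → (Pi.single a (1 : L) : Fin 5 → L) ∈ W) →
          z a • (Pi.single a (1 : L) : Fin 5 → L) ∈ Submodule.span L (bvec 3 4 μ ''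
            (((Finset.univ.filter fun i => i < 3 ∧ (Pi.single i (1 : L) : Fin 5 → L) ∈ W) ∪ {3} :
              Finset (Fin 5)) : Set (Fin 5))) := by
        intro a ha h
        by_cases h0 : z a = 0
        · rw [h0, zero_smul]; exact Submodule.zero_mem _
        · refine Submodule.smul_mem _ _ (Submodule.subset_span ⟨a, ?_, hbl a ha⟩)
          simp only [Finset.coe_union, Set.mem_union, Finset.mem_coe, Finset.mem_filter,
            Finset.mem_univ, true_and]
          exact Or.inl ⟨ha, h h0⟩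
      refine Submodule.add_mem _ (Submodule.add_mem _ (Submodule.add_mem _ ?_ ?_) ?_) ?_
      · exact hterm 0 (by decide) (hS0 z hzW)
      · exact hterm 1 (by decide) (hS1 z hzW)
      · exact hterm 2 (by decide) (hS2 z hzW)
      · refine Submodule.smul_mem _ _ (Submodule.subset_span ⟨3, ?_, rfl⟩)
        simp
    · rw [Submodule.span_le]
      rintro _ ⟨i, hi, rfl⟩
      simp only [Finset.coe_union, Set.mem_union, Finset.mem_coe, Finset.mem_filter,
            Finset.mem_univ, true_and, Finset.mem_singleton] at hi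
      rcases hi with hi | hi
      · rw [hbl i hi.1]
        exact hi.2
      · rw [hi, hb3]
        exact hy
  · refine ⟨3, 4, 0, Finset.univ.filter fun i => (Pi.single i (1 : L) : Fin 5 → L) ∈ W,
      Or.inl ⟨rfl, rfl⟩, Or.inl rfl, ?_⟩
    have hset : ((Finset.univ.filter fun i => (Pi.single i (1 : L) : Fin 5 → L) ∈ W :
        Finset (Fin 5)) : Set (Fin 5)) = {i | Pi.single i (1 : L) ∈ W} := by
      ext i
      simp
    rw [hset]
    apply span_std
    intro x hx
    have h4' : x 4 ≠ 0 → (Pi.single 4 (1 : L) : Fin 5 → L) ∈ W := by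
      intro hx4
      by_cases hx3 : x 3 = 0
      · refine hsm 4 (x 4) hx4 ?_
        convert hS34 x hx using 1
        ext i
        fin_cases i <;> simp [Pi.single_apply, hx3]
      · by_contra h
        exact hcase ⟨⟨x, hx, hx3⟩, h⟩
    have h3' : x 3 ≠ 0 → (Pi.single 3 (1 : L) : Fin 5 → L) ∈ W := by
      intro hx3
      have he4 : (Pi.single 4 (1 : L) : Fin 5 → L) ∈ W := by
        by_contra h
        exact hcase ⟨⟨x, hx, hx3⟩, h⟩
      refine hsm 3 (x 3) hx3 ?_
      have := W.sub_mem (hS34 x hx) (W.smul_mem (x 4) he4)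
      convert this using 1
      ext i
      fin_cases i <;> simp [Pi.single_apply]
    intro i
    fin_cases i
    · exact hS0 x hx
    · exact hS1 x hx
    · exact hS2 x hx
    · exact h3'
    · exact h4'

end HB.E
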